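import Pool.Agent.H40.KAL.FRMa

/-!
# Near mates, hereditary inequalities
-/

set_option autoImplicit false

namespace Pool.KAL.FRM

open Finset Real
open Pool.Agent.H49.Ent Pool.Agent.H32.Dense Pool.STK Pool.KAF

variable {Ω : Type} [Fintype Ω] {υ τ σ γ ν β : Type}

lemma dbl_sum {p : Ω → ℝ} (hp : IsLaw p) (b : Ω → β) : ∑ w, dbl p b w = 1 := by
  rw [(dbl_fst hp.nonneg).sum, hp.sum_one]

open Classical in
/-- If two copies of `X`, conditionally independent given `b`, are usually near then the entropy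
of `X` given `b` is small. -/
theorem near {p : Ω → ℝ} (hp : IsLaw p) (b : Ω → β) (X : Ω → σ) (Nb : σ → Finset σ)
    (F : β → Finset σ) {κ L δ : ℝ} (hκ : 1 ≤ κ) (hL : 1 ≤ L)
    (hNb : ∀ x, ((Nb x).card : ℝ) ≤ κ) (hF : ∀ ω, 0 < p ω → X ω ∈ F (b ω))
    (hFc : ∀ ω, 0 < p ω → ((F (b ω)).card : ℝ) ≤ L)
    (hδ : Ex (dbl p b) (fun w => if X w.1 ∈ Nb (X w.2) then 0 else 1) ≤ δ) :
    CH p X b ≤ Real.log 2 + Real.log κ + δ * Real.log L := by
  have hp0 := hp.nonneg
  have hκ0 : (0 : ℝ) < κ := by linarith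
  have hL0 : (0 : ℝ) < L := by linarith
  have hlogL : 0 ≤ Real.log L := Real.log_nonneg hL
  have hlogκ : 0 ≤ Real.log κ := Real.log_nonneg hκ
  rw [← CH_dbl_1 (b := b) hp0 X X]
  set q : β × σ → σ → ℝ := fun w x =>
    (if x ∈ Nb w.2 then 1 / (2 * κ) else 0) +
      (if x ∈ F w.1 ∧ ((F w.1).card : ℝ) ≤ L then 1 / (2 * L) else 0) with hq
  have hposF : ∀ w : Ω × Ω, 0 < dbl p b w → X w.1 ∈ F (b w.1) ∧ ((F (b w.1)).card : ℝ) ≤ L := by
    intro w hw
    have h0 := ((glue_pos_iff hp0 hp0 w).mp hw).1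
    exact ⟨hF _ h0, hFc _ h0⟩
  have hcross := CH_le_cross (dbl_nonneg (b := b) hp0) (dbl_sum hp b) (fun w => X w.1)
    (fun w => (b w.1, X w.2)) q (by
      intro w hw
      have h := hposF w hw
      simp only [hq]
      rw [if_pos h]
      have : 0 < 1 / (2 * L) := by positivity
      split_ifs
      · positivity
      · linarith) (by
      intro w x
      simp only [hq]
      split_ifs <;> positivity) (by
      intro w _ G
      simp only [hq]
      rw [Finset.sum_add_distrib]
      have h1 : ∑ x ∈ G, (if x ∈ Nb (X w.2) then 1 / (2 * κ) else 0) ≤ 1 / 2 := by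
        rw [← Finset.sum_filter, Finset.sum_const, nsmul_eq_mul]
        have hc : ((G.filter fun x => x ∈ Nb (X w.2)).card : ℝ) ≤ κ := by
          refine le_trans ?_ (hNb (X w.2))
          exact_mod_cast Finset.card_le_card fun x hx => (Finset.mem_filter.mp hx).2
        calc ((G.filter fun x => x ∈ Nb (X w.2)).card : ℝ) * (1 / (2 * κ)) ≤
            κ * (1 / (2 * κ)) := mul_le_mul_of_nonneg_right hc (by positivity)
          _ = 1 / 2 := by field_simp
      have h2 : ∑ x ∈ G, (if x ∈ F (b w.1) ∧ ((F (b w.1)).card : ℝ) ≤ L then 1 / (2 * L) else 0) ≤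
          1 / 2 := by
        by_cases hc : ((F (b w.1)).card : ℝ) ≤ L
        · rw [← Finset.sum_filter, Finset.sum_const, nsmul_eq_mul]
          have hc' : ((G.filter fun x => x ∈ F (b w.1) ∧ ((F (b w.1)).card : ℝ) ≤ L).card : ℝ) ≤
              L := by
            refine le_trans ?_ hc
            have h5 : (G.filter fun x => x ∈ F (b w.1) ∧ ((F (b w.1)).card : ℝ) ≤ L) ⊆ F (b w.1) :=
              fun x hx => (Finset.mem_filter.mp hx).2.1
            exact_mod_cast Finset.card_le_card h5
          calc ((G.filter fun x => x ∈ F (b w.1) ∧ ((F (b w.1)).card : ℝ) ≤ L).card : ℝ) *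
                (1 / (2 * L)) ≤ L * (1 / (2 * L)) :=
              mul_le_mul_of_nonneg_right hc' (by positivity)
            _ = 1 / 2 := by field_simp
        · have : ∀ x ∈ G, (if x ∈ F (b w.1) ∧ ((F (b w.1)).card : ℝ) ≤ L then 1 / (2 * L)
              else 0) = 0 := by
            intro x _
            rw [if_neg (fun hcon => hc hcon.2)]
          rw [Finset.sum_eq_zero this]
          norm_num
      linarith)
  refine hcross.trans ?_
  have hpt : Ex (dbl p b) (fun w => -Real.log (q (b w.1, X w.2) (X w.1))) ≤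
      Ex (dbl p b) (fun w => (Real.log 2 + Real.log κ) +
        Real.log L * (if X w.1 ∈ Nb (X w.2) then 0 else 1)) := by
    refine Ex_mono (dbl_nonneg hp0) fun w hw => ?_
    have h := hposF w hw
    by_cases hn : X w.1 ∈ Nb (X w.2)
    · rw [if_pos hn, mul_zero, add_zero]
      have h1 : 1 / (2 * κ) ≤ q (b w.1, X w.2) (X w.1) := by
        simp only [hq]
        rw [if_pos hn, if_pos h]
        have : 0 < 1 / (2 * L) := by positivity
        linarith
      have h2 := Real.log_le_log (by positivity) h1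
      rw [one_div, Real.log_inv, Real.log_mul (by norm_num) hκ0.ne'] at h2
      linarith
    · rw [if_neg hn, mul_one]
      have h1 : 1 / (2 * L) ≤ q (b w.1, X w.2) (X w.1) := by
        simp only [hq]
        rw [if_neg hn, if_pos h, zero_add]
      have h2 := Real.log_le_log (by positivity) h1
      rw [one_div, Real.log_inv, Real.log_mul (by norm_num) hL0.ne'] at h2
      linarith
  refine hpt.trans ?_
  rw [Ex_add, Ex_smul, Ex_const (dbl_sum hp b)]
  have := mul_le_mul_of_nonneg_left hδ hlogL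
  linarith

lemma rs_law {p : Ω → ℝ} (hp : ∀ ω, 0 ≤ p ω) {E : Set Ω} (h : 0 < Pr p E) : IsLaw (rs p E) :=
  ⟨cond_nonneg hp _ _, sum_cond p _ h.ne'⟩

open Classical in
lemma rs_apply (p : Ω → ℝ) (E : Set Ω) (ω : Ω) : rs p E ω = if ω ∈ E then p ω / Pr p E else 0 := by
  unfold rs Pr Pool.Agent.H49.Ent.cond
  by_cases h : ω ∈ E
  · rw [if_pos h, if_pos (by simpa using h)]
  · rw [if_neg h, if_neg (by simpa using h)]

lemma rs_pos_iff {p : Ω → ℝ} (hp : ∀ ω, 0 ≤ p ω) {E : Set Ω} (h : 0 < Pr p E) (ω : Ω) :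
    0 < rs p E ω ↔ ω ∈ E ∧ 0 < p ω := by
  classical
  rw [rs_apply]
  by_cases hE : ω ∈ E
  · rw [if_pos hE]
    constructor
    · intro hh
      refine ⟨hE, ?_⟩
      rcases (hp ω).eq_or_lt with h0 | h0
      · rw [← h0, zero_div] at hh
        exact absurd hh (lt_irrefl _)
      · exact h0
    · intro hh
      exact div_pos hh.2 h
  · rw [if_neg hE]
    constructor
    · intro hh
      exact absurd hh (lt_irrefl _)
    · intro hh
      exact absurd hh.1 hE

/-- The law of a restriction. -/
lemma law_rs_le {p : Ω → ℝ} (hp : ∀ ω, 0 ≤ p ω) {E : Set Ω} (h : 0 < Pr p E) (X : Ω → σ) (x : σ) :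
    law (rs p E) X x ≤ law p X x / Pr p E := by
  classical
  unfold law
  rw [Finset.sum_div]
  refine Finset.sum_le_sum fun ω _ => ?_
  split_ifs with hx
  · rw [rs_apply]
    split_ifs
    · exact le_rfl
    · exact div_nonneg (hp ω) h.le
  · rw [zero_div]

lemma Pr_mono {p : Ω → ℝ} (hp : ∀ ω, 0 ≤ p ω) {A B : Set Ω} (h : A ⊆ B) : Pr p A ≤ Pr p B := by
  classical
  rw [CDF.Pr_eq, CDF.Pr_eq]
  refine Finset.sum_le_sum fun ω _ => ?_
  by_cases ha : ω ∈ A
  · rw [if_pos ha, if_pos (h ha)]
  · rw [if_neg ha]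
    split_ifs
    · exact hp ω
    · exact le_rfl

open Classical in
/-- Hereditary fullness gives a pointwise bound. -/
theorem hfull {p : Ω → ℝ} (hp : IsLaw p) (Y : Ω → υ) (T : Ω → τ) (F : Finset υ)
    (hY : ∀ ω, 0 < p ω → Y ω ∈ F) {d ε : ℝ} (hε : 0 < ε)
    (h : ∀ E : Set Ω, ε ≤ Pr p E → Real.log F.card - d ≤ CH (rs p E) Y T) :
    Pr p {ω | ¬ law p (fun v => (Y v, T v)) (Y ω, T ω) ≤
      (Real.exp d / F.card) * law p T (T ω)} ≤ ε := by
  set α : ℝ := Real.exp d / F.card with hα
  set E : Set Ω := {ω | ¬ law p (fun v => (Y v, T v)) (Y ω, T ω) ≤ α * law p T (T ω)} with hE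
  have hp0 := hp.nonneg
  by_contra hcon
  push Not at hcon
  have hEpos : 0 < Pr p E := hε.trans hcon
  have h1 := h E hcon.le
  have hl := rs_law hp0 hEpos
  -- the possible values
  set Fv : τ → Finset υ := fun t => F.filter fun y =>
    α * law p T t < law p (fun v => (Y v, T v)) (y, t) with hFv
  have hmem : ∀ ω, 0 < rs p E ω → Y ω ∈ Fv (T ω) := by
    intro ω hω
    obtain ⟨a, b⟩ := (rs_pos_iff hp0 hEpos ω).mp hω
    exact Finset.mem_filter.mpr ⟨hY ω b, not_le.mp a⟩
  obtain ⟨ω₀, hω₀⟩ : ∃ ω, 0 < rs p E ω := by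
    by_contra hc
    push Not at hc
    have : ∑ ω, rs p E ω = 0 := Finset.sum_eq_zero fun ω _ => le_antisymm (hc ω) (hl.nonneg ω)
    rw [hl.sum_one] at this
    exact one_ne_zero this
  have hF0 : 0 < F.card :=
    Finset.card_pos.mpr ⟨_, (Finset.mem_filter.mp (hmem ω₀ hω₀)).1⟩
  have hF1 : (0 : ℝ) < F.card := by exact_mod_cast hF0
  have hα0 : 0 < α := div_pos (Real.exp_pos _) hF1
  have hlogα : Real.log (1 / α) = Real.log F.card - d := by
    rw [hα, one_div, inv_div, Real.log_div hF1.ne' (Real.exp_pos _).ne', Real.log_exp]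
  have h2 := CH_le_card hl.nonneg hl.sum_one Y T Fv hmem
  have h3 : ∀ ω, 0 < rs p E ω → Real.log (((Fv (T ω)).card : ℝ)) < Real.log (1 / α) := by
    intro ω hω
    have hc : 0 < (Fv (T ω)).card := Finset.card_pos.mpr ⟨_, hmem ω hω⟩
    have hc' : (0 : ℝ) < (Fv (T ω)).card := by exact_mod_cast hc
    refine Real.log_lt_log hc' ?_
    have hT : 0 < law p T (T ω) := law_pos hp0 T ((rs_pos_iff hp0 hEpos ω).mp hω).2
    have h4 : ((Fv (T ω)).card : ℝ) * (α * law p T (T ω)) < law p T (T ω) := by
      have h5 : ∑ y ∈ Fv (T ω), α * law p T (T ω) <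
          ∑ y ∈ Fv (T ω), law p (fun v => (Y v, T v)) (y, T ω) := by
        refine Finset.sum_lt_sum_of_nonempty (Finset.card_pos.mp hc) fun y hy => ?_
        exact (Finset.mem_filter.mp hy).2
      rw [Finset.sum_const, nsmul_eq_mul] at h5
      refine h5.trans_le ?_
      -- the sum of the joint law over y is at most the law of T
      unfold law
      rw [Finset.sum_comm]
      refine Finset.sum_le_sum fun v _ => ?_
      by_cases hv : T v = T ω
      · rw [if_pos hv]
        refine (Finset.sum_le_sum (g := fun y => if Y v = y then p v else 0)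
          fun y _ => ?_).trans ?_
        · by_cases hy : Y v = y
          · rw [if_pos hy]
            split_ifs
            · exact le_rfl
            · exact hp0 v
          · rw [if_neg hy, if_neg (fun hc => hy (congrArg Prod.fst hc))]
        · rw [Finset.sum_ite_eq]
          split_ifs
          · exact le_rfl
          · exact hp0 v
      · rw [if_neg hv]
        refine le_of_eq (Finset.sum_eq_zero fun y _ => ?_)
        rw [if_neg (fun hc => hv (congrArg Prod.snd hc))]
    rw [lt_div_iff₀ hα0]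
    have h6 : ((Fv (T ω)).card : ℝ) * α * law p T (T ω) < 1 * law p T (T ω) := by linarith
    exact lt_of_mul_lt_mul_right h6 hT.le
  have h7 : Ex (rs p E) (fun ω => Real.log (((Fv (T ω)).card : ℝ))) < Real.log (1 / α) := by
    have : Real.log (1 / α) = Ex (rs p E) (fun _ => Real.log (1 / α)) :=
      (Ex_const hl.sum_one _).symm
    rw [this]
    unfold Ex
    refine Finset.sum_lt_sum (fun ω _ => ?_) ⟨ω₀, Finset.mem_univ _, ?_⟩
    · rcases (hl.nonneg ω).eq_or_lt with h0 | h0
      · rw [← h0]; simp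
      · exact mul_le_mul_of_nonneg_left (h3 ω h0).le h0.le
    · exact mul_lt_mul_of_pos_left (h3 ω₀ hω₀) hω₀
  rw [hlogα] at h7
  linarith

open Classical in
/-- A hereditary rate gives a pointwise bound. -/
theorem hrate {p : Ω → ℝ} (hp : IsLaw p) (C : Ω → γ) (Y : Ω → υ) (N : Ω → ν) (F : Finset υ)
    (hY : ∀ ω, 0 < p ω → Y ω ∈ F) {h ε : ℝ} (hε : 0 < ε)
    (hh : ∀ E : Set Ω, ε ≤ Pr p E → CH (rs p E) N (fun ω => (C ω, Y ω)) ≤ h) :
    Pr p {ω | ¬ law p C (C ω) ≤ (2 * F.card * Real.exp h / ε) * law p (fun v => ((C v, Y v), N v))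
      ((C ω, Y ω), N ω)} ≤ ε := by
  set β : ℝ := 2 * F.card * Real.exp h / ε with hβ
  set b : Ω → (γ × υ) × ν := fun v => ((C v, Y v), N v) with hb
  set E : Set Ω := {ω | ¬ law p C (C ω) ≤ β * law p b ((C ω, Y ω), N ω)} with hE
  have hp0 := hp.nonneg
  by_contra hcon
  push Not at hcon
  have hEpos : 0 < Pr p E := hε.trans hcon
  have h1 := hh E hcon.le
  have hl := rs_law hp0 hEpos
  set q := rs p E with hq
  obtain ⟨ω₀, hω₀⟩ : ∃ ω, 0 < q ω := by
    by_contra hc
    push Not at hc
    have : ∑ ω, q ω = 0 := Finset.sum_eq_zero fun ω _ => le_antisymm (hc ω) (hl.nonneg ω)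
    rw [hl.sum_one] at this
    exact one_ne_zero this
  have hF0 : 0 < F.card :=
    Finset.card_pos.mpr ⟨_, hY ω₀ ((rs_pos_iff hp0 hEpos ω₀).mp hω₀).2⟩
  have hF1 : (0 : ℝ) < F.card := by exact_mod_cast hF0
  have hβ0 : 0 < β := by positivity
  -- upper bound
  have u1 : CH q b C ≤ Real.log F.card + h := by
    have e1 : CH q b C = CH q (fun ω => (N ω, Y ω)) C := by
      refine CH_congr hl.nonneg ?_ ?_ (fun _ _ _ _ h => h) (fun _ _ _ _ h => h)
      · intro ω ω' _ _ hh
        have h1 : b ω = b ω' := congrArg Prod.fst hh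
        exact Prod.ext (congrArg Prod.snd h1) (congrArg (fun z => z.1.2) h1)
      · intro ω ω' _ _ hh
        have h1 : (N ω, Y ω) = (N ω', Y ω') := congrArg Prod.fst hh
        have h2 : C ω = C ω' := congrArg Prod.snd hh
        have h3 : N ω = N ω' := congrArg Prod.fst h1
        have h4 : Y ω = Y ω' := congrArg Prod.snd h1
        change ((C ω, Y ω), N ω) = ((C ω', Y ω'), N ω')
        rw [h2, h3, h4]
    rw [e1, CH_chain hl.nonneg]
    have e2 : CH q Y C ≤ Real.log F.card := by
      have := CH_le_card hl.nonneg hl.sum_one Y C (fun _ => F)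
        (fun ω hω => hY ω ((rs_pos_iff hp0 hEpos ω).mp hω).2)
      rwa [Ex_const hl.sum_one] at this
    have e3 : CH q N (fun ω => (Y ω, C ω)) = CH q N (fun ω => (C ω, Y ω)) := by
      refine CH_congr hl.nonneg ?_ ?_ ?_ ?_ <;>
      · intro ω ω' _ _ hh
        simp only [Prod.mk.injEq] at hh ⊢
        tauto
    rw [e3]
    linarith
  -- lower bound
  have l1 : Real.log β - Real.log (1 / ε) ≤ CH q b C := by
    rw [CH_eq_neg_sum hl.nonneg]
    have kl : 0 ≤ Ex q (fun ω => Real.log (law q C (C ω)) - Real.log (law p C (C ω))) := by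
      have := CH_le_cross hl.nonneg hl.sum_one C (fun _ => ()) (fun _ c => law p C c)
        (fun ω hω => law_pos hp0 C ((rs_pos_iff hp0 hEpos ω).mp hω).2)
        (fun _ c => law_nonneg hp0 C c) (by
          intro _ _ G
          unfold law
          rw [Finset.sum_comm, ← hp.sum_one]
          refine Finset.sum_le_sum fun v _ => ?_
          rw [Finset.sum_ite_eq]
          split_ifs
          · exact le_rfl
          · exact hp0 v)
      have e : CH q C (fun _ : Ω => ()) = -∑ ω, q ω * Real.log (law q C (C ω)) := by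
        unfold CH
        rw [H_const hl.sum_one, sub_zero]
        have : H q (fun ω => (C ω, (fun _ : Ω => ()) ω)) = H q C := by
          refine H_congr hl.nonneg ?_ ?_
          · intro ω ω' _ _ h
            simpa using h
          · intro ω ω' _ _ h
            simpa using h
        rw [this]
        rfl
      rw [e] at this
      unfold Ex at this ⊢
      simp only [mul_neg, Finset.sum_neg_distrib, mul_sub, Finset.sum_sub_distrib] at this ⊢
      linarith
    have hpt : Ex q (fun ω => (Real.log β + Real.log (Pr p E)) +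
        (Real.log (law q C (C ω)) - Real.log (law p C (C ω)))) ≤
        Ex q (fun ω => -Real.log (law q (fun ω => (b ω, C ω)) (b ω, C ω) / law q C (C ω))) := by
      refine Ex_mono hl.nonneg fun ω hω => ?_
      obtain ⟨a1, a2⟩ := (rs_pos_iff hp0 hEpos ω).mp hω
      have b1 : 0 < law q (fun ω => (b ω, C ω)) (b ω, C ω) := law_pos hl.nonneg _ hω
      have b2 : 0 < law q C (C ω) := law_pos hl.nonneg _ hω
      have b3 : 0 < law p C (C ω) := law_pos hp0 _ a2
      have b4 : 0 < law p b (b ω) := law_pos hp0 _ a2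
      have b5 : law q (fun ω => (b ω, C ω)) (b ω, C ω) ≤
          law p (fun ω => (b ω, C ω)) (b ω, C ω) / Pr p E := law_rs_le hp0 hEpos _ _
      have b6 : law p (fun ω => (b ω, C ω)) (b ω, C ω) ≤ law p b (b ω) := by
        unfold law
        refine Finset.sum_le_sum fun v _ => ?_
        by_cases hv : (b v, C v) = (b ω, C ω)
        · rw [if_pos hv, if_pos (congrArg Prod.fst hv)]
        · rw [if_neg hv]
          split_ifs
          · exact hp0 v
          · exact le_rfl
      have b7 : β * law p b (b ω) < law p C (C ω) := not_le.mp a1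
      have b8 : law q (fun ω => (b ω, C ω)) (b ω, C ω) ≤ law p C (C ω) / (β * Pr p E) := by
        refine b5.trans ?_
        rw [div_le_div_iff₀ hEpos (by positivity)]
        have := mul_le_mul_of_nonneg_right b6 (mul_pos hβ0 hEpos).le
        have h9 := mul_lt_mul_of_pos_right b7 hEpos
        nlinarith
      have b9 := Real.log_le_log b1 b8
      rw [Real.log_div b3.ne' (by positivity), Real.log_mul hβ0.ne' hEpos.ne'] at b9
      rw [Real.log_div b1.ne' b2.ne']
      linarith
    rw [Ex_add, Ex_const hl.sum_one] at hpt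
    have hPE : Real.log ε ≤ Real.log (Pr p E) := Real.log_le_log hε hcon.le
    rw [one_div, Real.log_inv]
    linarith
  have hlogβ : Real.log β = Real.log 2 + Real.log F.card + h + Real.log (1 / ε) := by
    rw [hβ, Real.log_div (by positivity) hε.ne', Real.log_mul (by positivity)
      (Real.exp_pos _).ne', Real.log_mul (by norm_num) hF1.ne', Real.log_exp, one_div,
      Real.log_inv]
    ring
  have := Real.log_pos (show (1 : ℝ) < 2 by norm_num)
  linarith

end Pool.KAL.FRM
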