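import Mathlib

/-!
# Module CBP: counting bad pairs of scales

Everything is about nonnegative arrays with bounded sums.

* `few`: at most `S / ε` entries of a row with sum `≤ S` are `≥ ε`.
* `CB1Stmt`: if for each `q` the sum of `j w q` over `w` is at most `S`, then, for all but
  `S / (ε δ)` of the `w`, at most the fraction `δ` of the `q` satisfy `ε ≤ j w q`.
* `CB2Stmt`: the same if the information is `i (P w q) q`, with bounded sums over `q` for fixed
  first argument.
* `CB3Stmt`: both together: all but a bounded number of the `w` are good for all but a fraction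
  `2 δ` of the `q`.
* `CBNStmt`: the separated version: the exceptional `w` lie in few intervals.
-/

set_option autoImplicit false

namespace Pool.KAL.CBP

open Finset

/-- Few entries are large. -/
lemma few {κ : Type} (Q : Finset κ) (i : κ → ℝ) {S ε : ℝ} (hε : 0 < ε) (hi : ∀ q ∈ Q, 0 ≤ i q)
    (hS : ∑ q ∈ Q, i q ≤ S) : ((Q.filter fun q => ε ≤ i q).card : ℝ) ≤ S / ε := by
  rw [le_div_iff₀ hε]
  refine le_trans ?_ hS
  calc ((Q.filter fun q => ε ≤ i q).card : ℝ) * ε = ∑ q ∈ Q.filter fun q => ε ≤ i q, ε := by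
        rw [Finset.sum_const, nsmul_eq_mul]
    _ ≤ ∑ q ∈ Q.filter fun q => ε ≤ i q, i q :=
        Finset.sum_le_sum fun q hq => (Finset.mem_filter.mp hq).2
    _ ≤ ∑ q ∈ Q, i q := Finset.sum_le_sum_of_subset_of_nonneg (Finset.filter_subset _ _)
        fun q hq _ => hi q hq

/-- The core: many bad pairs make a large sum. -/
lemma core {ι κ : Type} (W : Finset ι) (B : ι → Finset κ) (v : ι → κ → ℝ) {ε T n : ℝ}
    (hε : 0 ≤ ε) (hv : ∀ w ∈ W, ∀ q ∈ B w, ε ≤ v w q) (hn : ∀ w ∈ W, n ≤ (B w).card)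
    (hT : ∑ w ∈ W, ∑ q ∈ B w, v w q ≤ T) : (W.card : ℝ) * (n * ε) ≤ T := by
  refine le_trans ?_ hT
  calc (W.card : ℝ) * (n * ε) = ∑ _w ∈ W, n * ε := by rw [Finset.sum_const, nsmul_eq_mul]
    _ ≤ ∑ w ∈ W, ∑ q ∈ B w, v w q := by
        refine Finset.sum_le_sum fun w hw => ?_
        calc n * ε ≤ (B w).card * ε := mul_le_mul_of_nonneg_right (hn w hw) hε
          _ = ∑ _q ∈ B w, ε := by rw [Finset.sum_const, nsmul_eq_mul]
          _ ≤ ∑ q ∈ B w, v w q := Finset.sum_le_sum fun q hq => hv w hw q hq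

/-- The scales `w` for which at least `δ #Q` of the `q` have `ε ≤ j w q`. -/
noncomputable def badW {ι κ : Type} (W : Finset ι) (Q : Finset κ) (j : ι → κ → ℝ) (ε δ : ℝ) :
    Finset ι :=
  W.filter fun w => δ * Q.card ≤ ((Q.filter fun q => ε ≤ j w q).card : ℝ)

/-- Sums over `w` are bounded, for each `q`. -/
def CB1Stmt : Prop :=
  ∀ (ι κ : Type) (W : Finset ι) (Q : Finset κ) (j : ι → κ → ℝ) (S ε δ : ℝ), 0 < ε → 0 < δ →
    Q.Nonempty → (∀ w ∈ W, ∀ q ∈ Q, 0 ≤ j w q) → (∀ q ∈ Q, ∑ w ∈ W, j w q ≤ S) →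
    ((badW W Q j ε δ).card : ℝ) ≤ S / (ε * δ)

/-- The information is `i (P w q) q`, where `w ↦ P w q` is injective for each `q`, and the sums
over `q` are bounded. -/
def CB2Stmt : Prop :=
  ∀ (ι κ π : Type) (W : Finset ι) (Q : Finset κ) (R : Finset π) (P : ι → κ → π) (i : π → κ → ℝ)
    (S ε δ : ℝ), 0 < ε → 0 < δ → Q.Nonempty → (∀ x ∈ R, ∀ q ∈ Q, 0 ≤ i x q) →
    (∀ w ∈ W, ∀ q ∈ Q, P w q ∈ R) →
    (∀ q ∈ Q, ∀ w ∈ W, ∀ w' ∈ W, P w q = P w' q → w = w') →
    (∀ x ∈ R, ∑ q ∈ Q, i x q ≤ S) →
    ((badW W Q (fun w q => i (P w q) q) ε δ).card : ℝ) ≤ R.card / Q.card * (S / (ε * δ))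

theorem cb1_thm : CB1Stmt := by
  intro ι κ W Q j S ε δ hε hδ hQ hj hS
  have hQ' : (0 : ℝ) < Q.card := by exact_mod_cast Finset.card_pos.mpr hQ
  have h := core (badW W Q j ε δ) (fun w => Q.filter fun q => ε ≤ j w q) j (n := δ * Q.card)
    (T := Q.card * S) hε.le (fun w _ q hq => (Finset.mem_filter.mp hq).2)
    (fun w hw => (Finset.mem_filter.mp hw).2) (by
      calc ∑ w ∈ badW W Q j ε δ, ∑ q ∈ Q.filter fun q => ε ≤ j w q, j w q ≤
            ∑ w ∈ W, ∑ q ∈ Q, j w q := by
            refine (Finset.sum_le_sum fun w hw => ?_).trans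
              (Finset.sum_le_sum_of_subset_of_nonneg (Finset.filter_subset _ _) fun w hw _ =>
                Finset.sum_nonneg fun q hq => hj w hw q hq)
            exact Finset.sum_le_sum_of_subset_of_nonneg (Finset.filter_subset _ _)
              fun q hq _ => hj w (Finset.mem_filter.mp hw).1 q hq
        _ = ∑ q ∈ Q, ∑ w ∈ W, j w q := Finset.sum_comm
        _ ≤ ∑ _q ∈ Q, S := Finset.sum_le_sum fun q hq => hS q hq
        _ = Q.card * S := by rw [Finset.sum_const, nsmul_eq_mul])
  rw [le_div_iff₀ (by positivity)]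
  have h2 : ((badW W Q j ε δ).card : ℝ) * (ε * δ) * Q.card ≤ S * Q.card := by linarith
  exact le_of_mul_le_mul_right h2 hQ'

theorem cb2_thm : CB2Stmt := by
  classical
  intro ι κ π W Q R P i S ε δ hε hδ hQ hi hP hinj hS
  have hQ' : (0 : ℝ) < Q.card := by exact_mod_cast Finset.card_pos.mpr hQ
  have h := core (badW W Q (fun w q => i (P w q) q) ε δ)
    (fun w => Q.filter fun q => ε ≤ i (P w q) q) (fun w q => i (P w q) q) (n := δ * Q.card)
    (T := R.card * S) hε.le (fun w _ q hq => (Finset.mem_filter.mp hq).2)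
    (fun w hw => (Finset.mem_filter.mp hw).2) (by
      calc ∑ w ∈ badW W Q (fun w q => i (P w q) q) ε δ,
              ∑ q ∈ Q.filter fun q => ε ≤ i (P w q) q, i (P w q) q ≤
            ∑ w ∈ W, ∑ q ∈ Q, i (P w q) q := by
            refine (Finset.sum_le_sum fun w hw => ?_).trans
              (Finset.sum_le_sum_of_subset_of_nonneg (Finset.filter_subset _ _) fun w hw _ =>
                Finset.sum_nonneg fun q hq => hi _ (hP w hw q hq) q hq)
            exact Finset.sum_le_sum_of_subset_of_nonneg (Finset.filter_subset _ _)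
              fun q hq _ => hi _ (hP w (Finset.mem_filter.mp hw).1 q hq) q hq
        _ = ∑ q ∈ Q, ∑ w ∈ W, i (P w q) q := Finset.sum_comm
        _ ≤ ∑ q ∈ Q, ∑ x ∈ R, i x q := by
            refine Finset.sum_le_sum fun q hq => ?_
            rw [← Finset.sum_image (s := W) (g := fun w => P w q) (f := fun x => i x q)
              (fun w hw w' hw' h => hinj q hq w hw w' hw' h)]
            refine Finset.sum_le_sum_of_subset_of_nonneg ?_ fun x hx _ => hi x hx q hq
            intro x hx
            obtain ⟨w, hw, rfl⟩ := Finset.mem_image.mp hx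
            exact hP w hw q hq
        _ = ∑ x ∈ R, ∑ q ∈ Q, i x q := Finset.sum_comm
        _ ≤ ∑ _x ∈ R, S := Finset.sum_le_sum fun x hx => hS x hx
        _ = R.card * S := by rw [Finset.sum_const, nsmul_eq_mul])
  rw [div_mul_div_comm, le_div_iff₀ (by positivity)]
  linarith

/-- Both types of informations: all but a bounded number of the scales `w` are good for all but
the fraction `2 δ` of the `q`. -/
def CB3Stmt : Prop :=
  ∀ (ι κ π : Type) [DecidableEq ι] (W : Finset ι) (Q : Finset κ) (R : Finset π) (P : ι → κ → π)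
    (i : π → κ → ℝ) (j : ι → κ → ℝ) (S ε δ : ℝ), 0 < ε → 0 < δ → Q.Nonempty →
    (∀ x ∈ R, ∀ q ∈ Q, 0 ≤ i x q) → (∀ w ∈ W, ∀ q ∈ Q, 0 ≤ j w q) →
    (∀ w ∈ W, ∀ q ∈ Q, P w q ∈ R) →
    (∀ q ∈ Q, ∀ w ∈ W, ∀ w' ∈ W, P w q = P w' q → w = w') →
    (∀ x ∈ R, ∑ q ∈ Q, i x q ≤ S) → (∀ q ∈ Q, ∑ w ∈ W, j w q ≤ S) →
    ∃ E ⊆ W, (E.card : ℝ) ≤ (1 + R.card / Q.card) * (S / (ε * δ)) ∧ ∀ w ∈ W \ E,
      ((Q.filter fun q => ε ≤ i (P w q) q ∨ ε ≤ j w q).card : ℝ) < 2 * δ * Q.card

theorem cb3_thm : CB3Stmt := by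
  classical
  intro ι κ π _ W Q R P i j S ε δ hε hδ hQ hi hj hP hinj hSi hSj
  have h1 := cb1_thm ι κ W Q j S ε δ hε hδ hQ hj hSj
  have h2 := cb2_thm ι κ π W Q R P i S ε δ hε hδ hQ hi hP hinj hSi
  refine ⟨badW W Q j ε δ ∪ badW W Q (fun w q => i (P w q) q) ε δ, ?_, ?_, ?_⟩
  · exact Finset.union_subset (Finset.filter_subset _ _) (Finset.filter_subset _ _)
  · have h3 : (((badW W Q j ε δ ∪ badW W Q (fun w q => i (P w q) q) ε δ).card : ℕ) : ℝ) ≤
        (badW W Q j ε δ).card + (badW W Q (fun w q => i (P w q) q) ε δ).card := by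
      exact_mod_cast Finset.card_union_le _ _
    linarith
  · intro w hw
    obtain ⟨hwW, hwE⟩ := Finset.mem_sdiff.mp hw
    rw [Finset.mem_union, not_or] at hwE
    have a1 : ((Q.filter fun q => ε ≤ j w q).card : ℝ) < δ * Q.card := by
      by_contra hcon
      exact hwE.1 (Finset.mem_filter.mpr ⟨hwW, not_lt.mp hcon⟩)
    have a2 : ((Q.filter fun q => ε ≤ i (P w q) q).card : ℝ) < δ * Q.card := by
      by_contra hcon
      exact hwE.2 (Finset.mem_filter.mpr ⟨hwW, not_lt.mp hcon⟩)
    have a3 : ((Q.filter fun q => ε ≤ i (P w q) q ∨ ε ≤ j w q).card : ℝ) ≤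
        (Q.filter fun q => ε ≤ i (P w q) q).card + (Q.filter fun q => ε ≤ j w q).card := by
      rw [Finset.filter_or]
      exact_mod_cast Finset.card_union_le _ _
    linarith

/-- A maximal separated subset. -/
lemma exists_separated (W : Finset ℕ) (L : ℕ) :
    ∃ F ⊆ W, (∀ x ∈ F, ∀ y ∈ F, x < y → x + L ≤ y) ∧
      ∀ w ∈ W, ∃ f ∈ F, f < w + L ∧ w < f + L ∨ f = w := by
  classical
  induction W using Finset.induction_on with
  | empty => exact ⟨∅, le_rfl, by simp, by simp⟩
  | insert a s ha ih =>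
    obtain ⟨F, h1, h2, h3⟩ := ih
    by_cases h : ∃ f ∈ F, f < a + L ∧ a < f + L ∨ f = a
    · refine ⟨F, h1.trans (Finset.subset_insert _ _), h2, ?_⟩
      intro w hw
      rcases Finset.mem_insert.mp hw with rfl | hw
      · exact h
      · exact h3 w hw
    · refine ⟨insert a F, Finset.insert_subset_insert _ h1, ?_, ?_⟩
      · intro x hx y hy hxy
        rcases Finset.mem_insert.mp hx with hx1 | hx1
        · rcases Finset.mem_insert.mp hy with hy1 | hy1
          · omega
          · by_contra hcon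
            exact h ⟨y, hy1, Or.inl ⟨by omega, by omega⟩⟩
        · rcases Finset.mem_insert.mp hy with hy1 | hy1
          · by_contra hcon
            exact h ⟨x, hx1, Or.inl ⟨by omega, by omega⟩⟩
          · exact h2 x hx1 y hy1 hxy
      · intro w hw
        rcases Finset.mem_insert.mp hw with rfl | hw
        · exact ⟨w, Finset.mem_insert_self _ _, Or.inr rfl⟩
        · obtain ⟨f, hf, hh⟩ := h3 w hw
          exact ⟨f, Finset.mem_insert_of_mem hf, hh⟩

/-- The separated version. Row `a`, digits `q'' < m` of the direction, `i a q''` an information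
whose sum over `a` is at most `S` for each `q''`. For each window `w ∈ W` at least `δ m` of the `q`
are bad, which means that the sum of `i (w + q) q''` over `q - L < q'' ≤ q` is at least `ε`. Then
the windows are covered by `S / (ε δ)` intervals of radius `L`. -/
def CBNStmt : Prop :=
  ∀ (i : ℕ → ℕ → ℝ) (A W : Finset ℕ) (m L : ℕ) (B : ℕ → Finset ℕ) (S ε δ : ℝ), 0 < ε → 0 < δ →
    0 < m → 0 < L → (∀ a q, 0 ≤ i a q) → (∀ q < m, ∑ a ∈ A, i a q ≤ S) →
    (∀ w ∈ W, ∀ q ∈ B w, q < m ∧ w + q ∈ A ∧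
      ε ≤ ∑ q'' ∈ (Finset.range m).filter (fun q'' => q'' ≤ q ∧ q < q'' + L), i (w + q) q'') →
    (∀ w ∈ W, δ * m ≤ (B w).card) →
    ∃ F ⊆ W, (F.card : ℝ) ≤ S / (ε * δ) ∧ (∀ x ∈ F, ∀ y ∈ F, x < y → x + L ≤ y) ∧
      ∀ w ∈ W, ∃ f ∈ F, f < w + L ∧ w < f + L

theorem cbn_thm : CBNStmt := by
  classical
  intro i A W m L B S ε δ hε hδ hm hL hi hS hB hδB
  obtain ⟨F, h1, h2, h3⟩ := exists_separated W L
  have hm' : (0 : ℝ) < m := by exact_mod_cast hm
  refine ⟨F, h1, ?_, h2, ?_⟩
  · have h := core F B (fun w q => ∑ q'' ∈ (Finset.range m).filter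
        (fun q'' => q'' ≤ q ∧ q < q'' + L), i (w + q) q'') (n := δ * m) (T := m * S) hε.le
      (fun w hw q hq => (hB w (h1 hw) q hq).2.2) (fun w hw => hδB w (h1 hw)) (by
        -- rewrite as a sum over triples
        have e1 : ∑ w ∈ F, ∑ q ∈ B w, ∑ q'' ∈ (Finset.range m).filter
              (fun q'' => q'' ≤ q ∧ q < q'' + L), i (w + q) q'' =
            ∑ q'' ∈ Finset.range m, ∑ w ∈ F, ∑ q ∈ (B w).filter
              (fun q => q'' ≤ q ∧ q < q'' + L), i (w + q) q'' := by
          rw [Finset.sum_comm' (s := Finset.range m) (t := fun _ => F) (t' := F)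
            (s' := fun _ => Finset.range m) (by intro x y; simp)]
          refine Finset.sum_congr rfl fun w _ => ?_
          rw [Finset.sum_comm' (s := Finset.range m)
            (t := fun q'' => (B w).filter (fun q => q'' ≤ q ∧ q < q'' + L)) (t' := B w)
            (s' := fun q => (Finset.range m).filter (fun q'' => q'' ≤ q ∧ q < q'' + L))
            (by intro x y; simp only [Finset.mem_filter]; tauto)]
        rw [e1]
        calc ∑ q'' ∈ Finset.range m, ∑ w ∈ F, ∑ q ∈ (B w).filter
              (fun q => q'' ≤ q ∧ q < q'' + L), i (w + q) q'' ≤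
            ∑ q'' ∈ Finset.range m, ∑ a ∈ A, i a q'' := by
              refine Finset.sum_le_sum fun q'' _ => ?_
              rw [Finset.sum_sigma' F (fun w => (B w).filter (fun q => q'' ≤ q ∧ q < q'' + L))
                (fun w q => i (w + q) q'')]
              rw [← Finset.sum_image (s := F.sigma fun w =>
                (B w).filter (fun q => q'' ≤ q ∧ q < q'' + L))
                (g := fun z : (_ : ℕ) × ℕ => z.1 + z.2) (f := fun a => i a q'')]
              · refine Finset.sum_le_sum_of_subset_of_nonneg ?_ fun a _ _ => hi a q''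
                intro a ha
                obtain ⟨z, hz, rfl⟩ := Finset.mem_image.mp ha
                rw [Finset.mem_sigma] at hz
                exact (hB z.1 (h1 hz.1) z.2 (Finset.mem_filter.mp hz.2).1).2.1
              · intro z hz z' hz' hzz
                obtain ⟨w, q⟩ := z
                obtain ⟨w', q'⟩ := z'
                rw [Finset.mem_coe, Finset.mem_sigma] at hz hz'
                have b1 := (Finset.mem_filter.mp hz.2).2
                have b2 := (Finset.mem_filter.mp hz'.2).2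
                have hzz' : w + q = w' + q' := hzz
                simp only at b1 b2 hz hz'
                have hw : w = w' := by
                  rcases lt_trichotomy w w' with hlt | heq | hgt
                  · have := h2 w hz.1 w' hz'.1 hlt
                    omega
                  · exact heq
                  · have := h2 w' hz'.1 w hz.1 hgt
                    omega
                subst hw
                have : q = q' := by omega
                rw [this]
          _ ≤ ∑ _q'' ∈ Finset.range m, S :=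
              Finset.sum_le_sum fun q hq => hS q (Finset.mem_range.mp hq)
          _ = m * S := by rw [Finset.sum_const, nsmul_eq_mul, Finset.card_range])
    rw [le_div_iff₀ (by positivity)]
    have h4 : (F.card : ℝ) * (ε * δ) * m ≤ S * m := by linarith
    exact le_of_mul_le_mul_right h4 hm'
  · intro w hw
    obtain ⟨f, hf, hh⟩ := h3 w hw
    refine ⟨f, hf, ?_⟩
    rcases hh with hh | hh
    · exact hh
    · subst hh
      exact ⟨by omega, by omega⟩

end Pool.KAL.CBP
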