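import Pool.Agent.H40.KAL.FRMc

/-!
# Module FRM: one frame per box
-/

set_option autoImplicit false

namespace Pool.KAL.FRM

open Finset Real
open Pool.Agent.H49.Ent Pool.Agent.H32.Dense Pool.STK Pool.KAF

/-- The setting. -/
structure Dat {Ω β : Type} [Fintype Ω] {k c : ℕ} (p : Ω → ℝ) (M : ℕ)
    (a : Ω → Fin c → ℤ) (s : Ω → Fin c → Fin k → ℤ) (Y : Ω → Fin k → ℤ) (N : Ω → Fin c → ℤ)
    (κ ε d : ℝ) (B : Ω → β) : Prop where
  hp : IsLaw p
  hε : 0 < ε
  hε1 : ε ≤ 1
  hM : 0 < M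
  hκ : 0 ≤ κ
  hY : ∀ ω j, 0 ≤ Y ω j ∧ Y ω j < M
  hN : ∀ ω, 0 < p ω → ∀ i, |(N ω i : ℝ) - (a ω i + ∑ j, (s ω i j : ℝ) * Y ω j / M)| ≤ κ
  hF : ∀ E : Set Ω, ε ≤ Pr p E →
      k * Real.log M - d ≤ CH (rs p E) Y (fun ω => (lev a s 0 ω, B ω))

variable {Ω β : Type} [Fintype Ω] {k c : ℕ} {p : Ω → ℝ} {M : ℕ}
    {a : Ω → Fin c → ℤ} {s : Ω → Fin c → Fin k → ℤ} {Y : Ω → Fin k → ℤ} {N : Ω → Fin c → ℤ}
    {κ ε d : ℝ} {B : Ω → β}

omit [Fintype Ω] in
lemma lev_zero (ω : Ω) : lev a s 0 ω = (a ω, s ω) := by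
  unfold lev
  simp

omit [Fintype Ω] in
lemma det_lev (e : ℕ) : Det p (lev a s 0) (lev a s e) := by
  intro ω ω' _ _ h
  rw [lev_zero, lev_zero] at h
  have h1 : a ω = a ω' := congrArg Prod.fst h
  have h2 : s ω = s ω' := congrArg Prod.snd h
  unfold lev
  rw [h1, h2]

omit [Fintype Ω] in
lemma lev_of_eq {ω ω' : Ω} (e : ℕ) (h : lev a s 0 ω = lev a s 0 ω') :
    lev a s e ω = lev a s e ω' := by
  rw [lev_zero, lev_zero] at h
  have h1 : a ω = a ω' := congrArg Prod.fst h
  have h2 : s ω = s ω' := congrArg Prod.snd h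
  unfold lev
  rw [h1, h2]

/-- The slopes at scale `2 ^ e'` given the box. -/
lemma slope (D : Dat p M a s Y N κ ε d B) {e e' : ℕ} (he : e' ≤ e) (hM : (2 : ℝ) ^ e' ≤ M) {h : ℝ}
    (hh : h + 2 * d + 2 * Real.log (1 / ε) + Real.log (4 * κ + 1) ≤ e' * Real.log 2)
    (hr : ∀ E : Set Ω, ε ≤ Pr p E →
      CH (rs p E) N (fun ω => ((B ω, lev a s e ω), Y ω)) ≤ h) :
    CH p (fun ω i j => s ω i j / 2 ^ e') (fun ω => (((B ω, lev a s e ω), Y ω), N ω)) ≤
      Real.log 2 + c * k * Real.log 3 + 5 * ε * (c * k * ((e : ℝ) - e') * Real.log 2) := by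
  classical
  have hp := D.hp
  have hp0 := hp.nonneg
  have hM0 : (0 : ℝ) < M := by exact_mod_cast D.hM
  have hε := D.hε
  have hκ := D.hκ
  set F : Finset (Fin k → ℤ) := Fintype.piFinset fun _ : Fin k => Finset.Ico (0 : ℤ) M with hF
  have hFc : (F.card : ℝ) = (M : ℝ) ^ k := by
    rw [hF, Fintype.card_piFinset]
    simp
  have hYF : ∀ ω, 0 < p ω → Y ω ∈ F := by
    intro ω _
    rw [hF, Fintype.mem_piFinset]
    intro j
    exact Finset.mem_Ico.mpr (D.hY ω j)
  set C : Ω → β × ((Fin c → ℤ) × (Fin c → Fin k → ℤ)) := fun ω => (B ω, lev a s e ω) with hC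
  set α : ℝ := Real.exp d / F.card with hα
  set γ : ℝ := 2 * F.card * Real.exp h / ε with hγ
  -- fullness
  have h1 : Pr p {ω | ¬ law p (fun v => (Y v, (lev a s 0 v, C v))) (Y ω, (lev a s 0 ω, C ω)) ≤
      α * law p (fun v => (lev a s 0 v, C v)) (lev a s 0 ω, C ω)} ≤ ε := by
    have h0 := hfull hp Y (fun ω => (lev a s 0 ω, B ω)) F hYF (d := d) hε (by
      intro E hE
      have := D.hF E hE
      rw [hFc, Real.log_pow]
      exact this)
    refine le_trans (Pr_mono hp0 ?_) h0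
    intro ω hω
    simp only [Set.mem_ofPred_eq] at hω ⊢
    intro hcon
    apply hω
    have e1 : law p (fun v => (Y v, (lev a s 0 v, C v))) (Y ω, (lev a s 0 ω, C ω)) =
        law p (fun v => (Y v, (lev a s 0 v, B v))) (Y ω, (lev a s 0 ω, B ω)) := by
      unfold law
      refine Finset.sum_congr rfl fun v _ => ?_
      by_cases hv : (Y v, (lev a s 0 v, B v)) = (Y ω, (lev a s 0 ω, B ω))
      · rw [if_pos hv, if_pos]
        simp only [Prod.mk.injEq, hC] at hv ⊢
        exact ⟨hv.1, hv.2.1, hv.2.2, lev_of_eq e hv.2.1⟩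
      · rw [if_neg hv, if_neg]
        intro hcc
        apply hv
        simp only [Prod.mk.injEq, hC] at hcc ⊢
        exact ⟨hcc.1, hcc.2.1, hcc.2.2.1⟩
    have e2 : law p (fun v => (lev a s 0 v, C v)) (lev a s 0 ω, C ω) =
        law p (fun v => (lev a s 0 v, B v)) (lev a s 0 ω, B ω) := by
      unfold law
      refine Finset.sum_congr rfl fun v _ => ?_
      by_cases hv : (lev a s 0 v, B v) = (lev a s 0 ω, B ω)
      · rw [if_pos hv, if_pos]
        simp only [Prod.mk.injEq, hC] at hv ⊢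
        exact ⟨hv.1, hv.2, lev_of_eq e hv.1⟩
      · rw [if_neg hv, if_neg]
        intro hcc
        apply hv
        simp only [Prod.mk.injEq, hC] at hcc ⊢
        exact ⟨hcc.1, hcc.2.1⟩
    rw [e1, e2]
    exact hcon
  -- rates
  have h2 := hrate hp C Y N F hYF hε hr
  -- the bad relation
  set R : (Fin c → ℤ) × (Fin c → Fin k → ℤ) → (Fin c → ℤ) × (Fin c → Fin k → ℤ) →
      (Fin k → ℤ) → Prop := fun x x' y =>
    (∃ i j, (2 : ℝ) ^ e' ≤ |(x.2 i j : ℝ) - x'.2 i j|) ∧
      ∀ i, |((x.1 i : ℝ) + ∑ j, (x.2 i j : ℝ) * y j / M) -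
        ((x'.1 i : ℝ) + ∑ j, (x'.2 i j : ℝ) * y j / M)| ≤ 2 * κ with hR
  have hcount : ∀ x x', ((F.filter fun y => R x x' y).card : ℝ) ≤
      M ^ k * (4 * κ / 2 ^ e' + 1 / M) := by
    intro x x'
    by_cases hx : ∃ i j, (2 : ℝ) ^ e' ≤ |(x.2 i j : ℝ) - x'.2 i j|
    · obtain ⟨i, j, hij⟩ := hx
      refine le_trans ?_ (count_le D.hM hκ (by positivity : (0 : ℝ) < 2 ^ e')
        ((x.1 i : ℝ) - x'.1 i) (fun j => (x.2 i j : ℝ) - x'.2 i j) j hij)
      have : (F.filter fun y => R x x' y) ⊆ (F.filter fun y =>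
          |((x.1 i : ℝ) - x'.1 i) + ∑ j, ((x.2 i j : ℝ) - x'.2 i j) * y j / M| ≤ 2 * κ) := by
        intro y hy
        obtain ⟨hy1, hy2⟩ := Finset.mem_filter.mp hy
        refine Finset.mem_filter.mpr ⟨hy1, ?_⟩
        have := hy2.2 i
        refine le_of_eq_of_le ?_ this
        congr 1
        have hs : ∑ j, ((x.2 i j : ℝ) - x'.2 i j) * y j / M =
            ∑ j, (x.2 i j : ℝ) * y j / M - ∑ j, (x'.2 i j : ℝ) * y j / M := by
          rw [← Finset.sum_sub_distrib]
          refine Finset.sum_congr rfl fun j _ => ?_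
          ring
        rw [hs]
        ring
      exact_mod_cast Finset.card_le_card this
    · have : (F.filter fun y => R x x' y) = ∅ := by
        rw [Finset.filter_eq_empty_iff]
        intro y _ hy
        exact hx hy.1
      rw [this]
      simp only [Finset.card_empty, Nat.cast_zero]
      positivity
  have hm := mates hp C (lev a s 0) Y N F hYF (α := α) (β := γ) (by positivity)
    (by positivity) h1 h2 R (κ := M ^ k * (4 * κ / 2 ^ e' + 1 / M)) (fun x x' => by
      convert hcount x x')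
  -- the total bad probability is at most 5 ε
  have hbad : 2 * ε + ε + α ^ 2 * γ * (M ^ k * (4 * κ / 2 ^ e' + 1 / M)) ≤ 5 * ε := by
    have hP : (0 : ℝ) < 2 ^ e' := by positivity
    have e1 : α ^ 2 * γ * (M ^ k * (4 * κ / 2 ^ e' + 1 / M)) =
        2 * (Real.exp d) ^ 2 * Real.exp h / ε * (4 * κ / 2 ^ e' + 1 / M) := by
      rw [hα, hγ, hFc]
      have : (M : ℝ) ^ k ≠ 0 := by positivity
      field_simp
    have e2 : 4 * κ / 2 ^ e' + 1 / M ≤ (4 * κ + 1) / 2 ^ e' := by
      rw [add_div]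
      have : (1 : ℝ) / M ≤ 1 / 2 ^ e' := one_div_le_one_div_of_le hP hM
      linarith
    have e3 : (Real.exp d) ^ 2 * Real.exp h * (4 * κ + 1) ≤ ε ^ 2 * 2 ^ e' := by
      have h5 := Real.exp_le_exp.mpr hh
      have h6 : Real.exp (h + 2 * d + 2 * Real.log (1 / ε) + Real.log (4 * κ + 1)) =
          (Real.exp d) ^ 2 * Real.exp h * (4 * κ + 1) / ε ^ 2 := by
        rw [Real.exp_add, Real.exp_add, Real.exp_add, Real.exp_log (by linarith), two_mul,
          Real.exp_add, two_mul, Real.exp_add, Real.exp_log (by positivity)]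
        field_simp
      have h7 : Real.exp (e' * Real.log 2) = 2 ^ e' := by
        rw [mul_comm, Real.exp_mul, Real.exp_log (by norm_num), Real.rpow_natCast]
      rw [h6, h7, div_le_iff₀ (by positivity)] at h5
      linarith
    rw [e1]
    have e4 : 2 * (Real.exp d) ^ 2 * Real.exp h / ε * (4 * κ / 2 ^ e' + 1 / M) ≤
        2 * (Real.exp d) ^ 2 * Real.exp h / ε * ((4 * κ + 1) / 2 ^ e') :=
      mul_le_mul_of_nonneg_left e2 (by positivity)
    have e5 : 2 * (Real.exp d) ^ 2 * Real.exp h / ε * ((4 * κ + 1) / 2 ^ e') ≤ 2 * ε := by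
      rw [div_mul_div_comm, div_le_iff₀ (by positivity)]
      nlinarith
    linarith
  -- near mates
  have hδ : Ex (dbl p (fun ω => ((C ω, Y ω), N ω))) (fun w =>
      if (fun ω i j => s ω i j / 2 ^ e') w.1 ∈ nbr ((fun ω i j => s ω i j / 2 ^ e') w.2)
        then 0 else 1) ≤ 5 * ε := by
    refine le_trans (Ex_mono (dbl_nonneg hp0) fun w hw => ?_) (hm.trans hbad)
    by_cases hn : (fun i j => s w.1 i j / 2 ^ e') ∈ nbr (fun i j => s w.2 i j / 2 ^ e')
    · rw [if_pos hn]
      split_ifs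
      · exact zero_le_one
      · exact le_rfl
    · rw [if_neg hn, if_pos]
      obtain ⟨q1, q2, q3⟩ := (glue_pos_iff hp0 hp0 w).mp hw
      have y1 : Y w.1 = Y w.2 := congrArg (fun z => z.1.2) q3
      have n1 : N w.1 = N w.2 := congrArg (fun z => z.2) q3
      simp only [hR, lev_zero]
      refine ⟨not_nbr hn, fun i => ?_⟩
      have m1 := D.hN w.1 q1 i
      have m2 := D.hN w.2 q2 i
      rw [← n1, ← y1] at m2
      rw [abs_le] at m1 m2 ⊢
      constructor <;> linarith
  have hfin := near hp (fun ω => ((C ω, Y ω), N ω)) (fun ω i j => s ω i j / 2 ^ e') nbr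
    (fun z => box (e - e') z.1.1.2.2) (κ := 3 ^ (c * k)) (L := 2 ^ ((e - e') * (c * k)))
    (one_le_pow₀ (by norm_num)) (one_le_pow₀ (by norm_num)) (fun x => (card_nbr x).le)
    (fun ω _ => mem_box he (s ω)) (fun ω _ => (card_box _ _).le)
    (δ := 5 * ε) (by convert hδ)
  refine hfin.trans (le_of_eq ?_)
  rw [Real.log_pow, Real.log_pow]
  push_cast [Nat.cast_sub he]
  ring

/-- One round. -/
lemma round (D : Dat p M a s Y N κ ε d B) {e e' : ℕ} (he : e' ≤ e) (hM : (2 : ℝ) ^ e' ≤ M) {h : ℝ}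
    (hh : h + 2 * d + 2 * Real.log (1 / ε) + Real.log (4 * κ + 1) ≤ e' * Real.log 2)
    (hr : ∀ E : Set Ω, ε ≤ Pr p E →
      CH (rs p E) N (fun ω => ((B ω, lev a s e ω), Y ω)) ≤ h) :
    CH p (lev a s e') (fun ω => (((B ω, lev a s e ω), Y ω), N ω)) ≤
      (Real.log 2 + c * k * Real.log 3 + c * Real.log (2 * (2 * κ + k + 1) + 1)) +
        5 * ε * (c * k * ((e : ℝ) - e') * Real.log 2) := by
  have hs := slope D he hM hh hr
  have hp := D.hp
  have hp0 := hp.nonneg
  have hM0 : (0 : ℝ) < M := by exact_mod_cast D.hM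
  set b : Ω → ((β × ((Fin c → ℤ) × (Fin c → Fin k → ℤ))) × (Fin k → ℤ)) × (Fin c → ℤ) :=
    fun ω => (((B ω, lev a s e ω), Y ω), N ω) with hb
  have h1 : CH p (lev a s e') b = CH p (fun ω i j => s ω i j / 2 ^ e') b +
      CH p (fun ω i => a ω i / 2 ^ e') (fun ω => ((fun i j => s ω i j / 2 ^ e'), b ω)) :=
    CH_chain hp0 (fun ω i => a ω i / 2 ^ e') (fun ω i j => s ω i j / 2 ^ e') b
  have h2 : CH p (fun ω i => a ω i / 2 ^ e') (fun ω => ((fun i j => s ω i j / 2 ^ e'), b ω)) ≤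
      c * Ex p (fun _ => Real.log (2 * (2 * κ + k + 1) + 1)) := by
    refine CH_le_vec hp0 hp.sum_one _ _ (fun _ => 2 * κ + k + 1) ?_
    intro ω ω' hω hω' hW i
    have y1 : Y ω = Y ω' := congrArg (fun z => z.2.1.2) hW
    have n1 : N ω = N ω' := congrArg (fun z => z.2.2) hW
    have s1 : (fun i j => s ω i j / 2 ^ e') = (fun i j => s ω' i j / 2 ^ e') :=
      congrArg (fun z => z.1) hW
    have m1 := D.hN ω hω i
    have m2 := D.hN ω' hω' i
    rw [← n1, ← y1] at m2
    have hP : (0 : ℝ) < 2 ^ e' := by positivity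
    have hsum : |∑ j, (s ω i j : ℝ) * Y ω j / M - ∑ j, (s ω' i j : ℝ) * Y ω j / M| ≤
        k * 2 ^ e' := by
      rw [← Finset.sum_sub_distrib]
      refine (Finset.abs_sum_le_sum_abs _ _).trans ?_
      have : ∀ j ∈ (univ : Finset (Fin k)), |(s ω i j : ℝ) * Y ω j / M - s ω' i j * Y ω j / M| ≤
          2 ^ e' := by
        intro j _
        have hj : s ω i j / 2 ^ e' = s ω' i j / 2 ^ e' := congrFun (congrFun s1 i) j
        have hPz : (0 : ℤ) < 2 ^ e' := by positivity
        have a1 := Int.emod_nonneg (s ω i j) hPz.ne'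
        have a2 := Int.emod_lt_of_pos (s ω i j) hPz
        have a3 := Int.ediv_mul_add_emod (s ω i j) (2 ^ e')
        have b1 := Int.emod_nonneg (s ω' i j) hPz.ne'
        have b2 := Int.emod_lt_of_pos (s ω' i j) hPz
        have b3 := Int.ediv_mul_add_emod (s ω' i j) (2 ^ e')
        rw [hj] at a3
        have c1 : |s ω i j - s ω' i j| ≤ 2 ^ e' := by
          rw [abs_le]
          constructor <;> linarith
        have c2 : |(s ω i j : ℝ) - s ω' i j| ≤ 2 ^ e' := by exact_mod_cast c1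
        have c3 : |(Y ω j : ℝ) / M| ≤ 1 := by
          have := D.hY ω j
          have q1 : (0 : ℝ) ≤ Y ω j := by exact_mod_cast this.1
          have q2 : (Y ω j : ℝ) ≤ M := by exact_mod_cast this.2.le
          rw [abs_of_nonneg (div_nonneg q1 hM0.le), div_le_one hM0]
          exact q2
        have c4 : (s ω i j : ℝ) * Y ω j / M - s ω' i j * Y ω j / M =
            ((s ω i j : ℝ) - s ω' i j) * (Y ω j / M) := by ring
        rw [c4, abs_mul]
        calc |(s ω i j : ℝ) - s ω' i j| * |(Y ω j : ℝ) / M| ≤ 2 ^ e' * 1 :=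
              mul_le_mul c2 c3 (abs_nonneg _) hP.le
          _ = 2 ^ e' := mul_one _
      refine (Finset.sum_le_sum this).trans (le_of_eq ?_)
      rw [Finset.sum_const, Finset.card_univ, Fintype.card_fin, nsmul_eq_mul]
    have hdiff : |(a ω i : ℝ) - a ω' i| ≤ 2 * κ + k * 2 ^ e' := by
      rw [abs_le] at m1 m2 hsum ⊢
      constructor <;> linarith
    -- floors
    set x := a ω i / 2 ^ e' with hx
    set x' := a ω' i / 2 ^ e' with hx'
    have hPz : (0 : ℤ) < 2 ^ e' := by positivity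
    have f1 : (x : ℝ) * 2 ^ e' ≤ a ω i ∧ (a ω i : ℝ) < x * 2 ^ e' + 2 ^ e' := by
      have a1 := Int.emod_nonneg (a ω i) hPz.ne'
      have a2 := Int.emod_lt_of_pos (a ω i) hPz
      have a3 := Int.ediv_mul_add_emod (a ω i) (2 ^ e')
      constructor
      · have : x * 2 ^ e' ≤ a ω i := by rw [hx]; linarith
        exact_mod_cast this
      · have : a ω i < x * 2 ^ e' + 2 ^ e' := by rw [hx]; linarith
        exact_mod_cast this
    have f2 : (x' : ℝ) * 2 ^ e' ≤ a ω' i ∧ (a ω' i : ℝ) < x' * 2 ^ e' + 2 ^ e' := by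
      have a1 := Int.emod_nonneg (a ω' i) hPz.ne'
      have a2 := Int.emod_lt_of_pos (a ω' i) hPz
      have a3 := Int.ediv_mul_add_emod (a ω' i) (2 ^ e')
      constructor
      · have : x' * 2 ^ e' ≤ a ω' i := by rw [hx']; linarith
        exact_mod_cast this
      · have : a ω' i < x' * 2 ^ e' + 2 ^ e' := by rw [hx']; linarith
        exact_mod_cast this
    have hP1 : (1 : ℝ) ≤ 2 ^ e' := one_le_pow₀ (by norm_num)
    have g1 : |((x : ℝ) - x')| * 2 ^ e' ≤ (2 * κ + k + 1) * 2 ^ e' := by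
      rw [← abs_of_pos hP, ← abs_mul, abs_of_pos hP, abs_le]
      rw [abs_le] at hdiff
      have hκ := D.hκ
      constructor <;> nlinarith
    have g2 := le_of_mul_le_mul_right g1 hP
    push_cast
    exact g2
  rw [Ex_const hp.sum_one] at h2
  rw [h1]
  linarith

theorem frm_thm : FRMStmt := by
  intro k c κ hκ
  set C₁ : ℝ := Real.log 2 + c * k * Real.log 3 + c * Real.log (2 * (2 * κ + k + 1) + 1) with hC₁
  set C₂ : ℝ := c * Real.log (2 * (2 * κ) + 1) with hC₂
  have l2 : 0 ≤ Real.log 2 := Real.log_nonneg (by norm_num)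
  have l3 : 0 ≤ Real.log 3 := Real.log_nonneg (by norm_num)
  have l4 : 0 ≤ Real.log (4 * κ + 1) := Real.log_nonneg (by linarith)
  have l5 : 0 ≤ Real.log (2 * (2 * κ + k + 1) + 1) :=
    Real.log_nonneg (by nlinarith [Nat.cast_nonneg (α := ℝ) k])
  have l6 : 0 ≤ Real.log (2 * (2 * κ) + 1) := Real.log_nonneg (by linarith)
  have hC₁0 : 0 ≤ C₁ := by positivity
  have hC₂0 : 0 ≤ C₂ := by positivity
  refine ⟨Real.log (4 * κ + 1) + C₁ + C₂, by positivity, ?_⟩
  intro Ω β _ p B M a s Y N e h R d ε hp hε hε1 hd hM hY hN hB hlev hF hr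
  have D : Dat p M a s Y N κ ε d B := ⟨hp, hε, hε1, hM, hκ, hY, hN, hF⟩
  have hp0 := hp.nonneg
  set b : Ω → (β × (Fin k → ℤ)) × (Fin c → ℤ) := fun ω => ((B ω, Y ω), N ω) with hb
  have hstep : ∀ r, r ≤ R → CH p (lev a s (e r)) b ≤
      r * C₁ + 5 * ε * (c * k * ((e 0 : ℝ) - e r) * Real.log 2) := by
    intro r
    induction r with
    | zero =>
      intro _
      have : CH p (lev a s (e 0)) b = 0 := by
        refine CH_eq_zero hp0 ?_
        intro ω ω' h1 h2 h3
        exact hB ω ω' h1 h2 (congrArg (fun z => z.1.1) h3)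
      rw [this]
      simp
    | succ r ih =>
      intro hrR
      have ih' := ih (by omega)
      obtain ⟨q1, q2, q3⟩ := hlev r (by omega)
      have hrd := round D q1 q2 (h := h r) (by linarith) (hr r (by omega))
      have hadd := CH_le_add hp0 (lev a s (e (r + 1))) (lev a s (e r)) b
      have hcg : CH p (lev a s (e (r + 1))) (fun ω => (lev a s (e r) ω, b ω)) =
          CH p (lev a s (e (r + 1))) (fun ω => (((B ω, lev a s (e r) ω), Y ω), N ω)) := by
        refine CH_congr hp0 ?_ ?_ ?_ ?_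
        · intro ω ω' _ _ hh
          exact congrArg Prod.fst hh
        · intro ω ω' _ _ hh
          exact congrArg Prod.fst hh
        · intro ω ω' _ _ hh
          simp only [Prod.mk.injEq, hb] at hh ⊢
          tauto
        · intro ω ω' _ _ hh
          simp only [Prod.mk.injEq, hb] at hh ⊢
          tauto
      rw [hcg] at hadd
      push_cast
      rw [← hC₁] at hrd
      have : 5 * ε * (c * k * ((e 0 : ℝ) - e (r + 1)) * Real.log 2) =
          5 * ε * (c * k * ((e 0 : ℝ) - e r) * Real.log 2) +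
            5 * ε * (c * k * ((e r : ℝ) - e (r + 1)) * Real.log 2) := by ring
      rw [this]
      linarith
  have hR := hstep R le_rfl
  -- the last step
  have hlast : CH p (lev a s 0) (fun ω => (lev a s (e R) ω, b ω)) ≤
      c * k * Real.log 2 * e R + C₂ := by
    have h1 : CH p (lev a s 0) (fun ω => (lev a s (e R) ω, b ω)) =
        CH p (fun ω => (a ω, s ω)) (fun ω => (lev a s (e R) ω, b ω)) := by
      congr 1
      funext ω
      exact lev_zero ω
    rw [h1, CH_chain hp0]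
    have h2 : CH p s (fun ω => (lev a s (e R) ω, b ω)) ≤ c * k * Real.log 2 * e R := by
      have h3 := CH_le_card hp0 hp.sum_one s (fun ω => (lev a s (e R) ω, b ω))
        (fun z => box (e R) z.1.2) (by
          intro ω _
          have := mem_box (Nat.zero_le (e R)) (s ω)
          simpa [lev] using this)
      refine h3.trans (le_of_eq ?_)
      have : (fun ω : Ω => Real.log ((box (e R) (lev a s (e R) ω, b ω).1.2).card)) =
          fun _ => c * k * Real.log 2 * e R := by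
        funext ω
        rw [card_box, Real.log_pow]
        push_cast
        ring
      rw [this, Ex_const hp.sum_one]
    have h4 : CH p a (fun ω => (s ω, (lev a s (e R) ω, b ω))) ≤
        c * Ex p (fun _ => Real.log (2 * (2 * κ) + 1)) := by
      refine CH_le_vec hp0 hp.sum_one _ _ (fun _ => 2 * κ) ?_
      intro ω ω' hω hω' hW i
      have y1 : Y ω = Y ω' := congrArg (fun z => z.2.2.1.2) hW
      have n1 : N ω = N ω' := congrArg (fun z => z.2.2.2) hW
      have s1 : s ω = s ω' := congrArg (fun z => z.1) hW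
      have m1 := D.hN ω hω i
      have m2 := D.hN ω' hω' i
      rw [← n1, ← y1, ← s1] at m2
      push_cast
      rw [abs_le] at m1 m2 ⊢
      constructor <;> linarith
    rw [Ex_const hp.sum_one] at h4
    linarith
  have hadd := CH_le_add hp0 (lev a s 0) (lev a s (e R)) b
  have hpos : 0 ≤ 5 * ε * (c * k * (e R : ℝ) * Real.log 2) := by positivity
  have hfin : CH p (lev a s 0) b ≤ R * C₁ + C₂ + c * k * Real.log 2 * (5 * ε * e 0 + e R) := by
    have : 5 * ε * (c * k * ((e 0 : ℝ) - e R) * Real.log 2) =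
        5 * ε * (c * k * (e 0 : ℝ) * Real.log 2) - 5 * ε * (c * k * (e R : ℝ) * Real.log 2) := by
      ring
    rw [this] at hR
    nlinarith
  refine hfin.trans ?_
  have h9 : (R : ℝ) * C₁ + C₂ ≤ (Real.log (4 * κ + 1) + C₁ + C₂) * (R + 1) := by
    have hR0 : (0 : ℝ) ≤ R := Nat.cast_nonneg R
    nlinarith [mul_nonneg hR0 hC₂0, mul_nonneg hR0 l4]
  linarith

end Pool.KAL.FRM
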