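import Pool.Agent.H56.KAL.Stmts3

/-!
# One frame per box: statement

`Y` is the position in the box (`k` coordinates, `0 ≤ Y < M`), the sheet through the point is the
graph of the affine function `a + s Y / M` with integers `a`, `s` (the unit is the finest row of
the box), and `N` is the height of the point. The sheet rounded at the scale `2 ^ e` is `lev e`.
-/

set_option autoImplicit false

namespace Pool.KAL.FRM

open Finset Real
open Pool.Agent.H49.Ent Pool.Agent.H32.Dense Pool.STK Pool.KAF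

/-- The sheet, rounded at the scale `2 ^ e`. -/
def lev {Ω : Type} {c k : ℕ} (a : Ω → Fin c → ℤ) (s : Ω → Fin c → Fin k → ℤ) (e : ℕ) (ω : Ω) :
    (Fin c → ℤ) × (Fin c → Fin k → ℤ) :=
  (fun i => a ω i / 2 ^ e, fun i j => s ω i j / 2 ^ e)

/-- **One frame per box.** If, for all events of probability at least `ε`, the position is almost
uniform given the sheet (deficit `d`), and the entropy of the height given the position and the
sheet rounded at the scale `2 ^ (e r)` is at most `h r`, where `h r + 2 d + 2 log (1 / ε) + C` is at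
most `e (r + 1) log 2`, then the position and the height almost determine the sheet. -/
def FRMStmt : Prop :=
  ∀ (k c : ℕ) (κ : ℝ), 0 ≤ κ → ∃ C : ℝ, 0 ≤ C ∧ ∀ (Ω β : Type) [Fintype Ω] (p : Ω → ℝ) (B : Ω → β)
    (M : ℕ) (a : Ω → Fin c → ℤ) (s : Ω → Fin c → Fin k → ℤ) (Y : Ω → Fin k → ℤ)
    (N : Ω → Fin c → ℤ) (e : ℕ → ℕ) (h : ℕ → ℝ) (R : ℕ) (d ε : ℝ),
    IsLaw p → 0 < ε → ε ≤ 1 → 0 ≤ d → 0 < M →
    (∀ ω j, 0 ≤ Y ω j ∧ Y ω j < M) →
    (∀ ω, 0 < p ω → ∀ i, |(N ω i : ℝ) - (a ω i + ∑ j, (s ω i j : ℝ) * Y ω j / M)| ≤ κ) →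
    Det p B (lev a s (e 0)) →
    (∀ r < R, e (r + 1) ≤ e r ∧ (2 : ℝ) ^ e (r + 1) ≤ M ∧
      h r + 2 * d + 2 * Real.log (1 / ε) + C ≤ e (r + 1) * Real.log 2) →
    (∀ E : Set Ω, ε ≤ Pr p E →
      k * Real.log M - d ≤ CH (rs p E) Y (fun ω => (lev a s 0 ω, B ω))) →
    (∀ r < R, ∀ E : Set Ω, ε ≤ Pr p E →
      CH (rs p E) N (fun ω => ((B ω, lev a s (e r) ω), Y ω)) ≤ h r) →
    CH p (lev a s 0) (fun ω => ((B ω, Y ω), N ω)) ≤
      C * (R + 1) + c * k * Real.log 2 * (5 * ε * e 0 + e R)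

end Pool.KAL.FRM
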