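import Pool.Agent.H56.KAL.Stmts3
import Pool.Agent.H97.KAL.CDF

/-!
# Mates: tools for one frame per box

* `free`: on the event where the conditional law of `Y` given `T` has small density, `Y` may be
  replaced by the counting measure;
* `mates`: probability that two conditionally independent copies are in a bad relation;
* `near`: if two conditionally independent copies are usually near then the entropy is small;
* `hfull`, `hrate`: Shannon inequalities which are stable under restriction to events give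
  pointwise inequalities.
-/

set_option autoImplicit false

namespace Pool.KAL.FRM

open Finset Real
open Pool.Agent.H49.Ent Pool.Agent.H32.Dense Pool.STK Pool.KAF

variable {Ω : Type} [Fintype Ω] {υ τ σ γ ν : Type}

open Classical in
lemma free {p : Ω → ℝ} (hp : ∀ ω, 0 ≤ p ω) (Y : Ω → υ) (T : Ω → τ) (F : Finset υ)
    (hY : ∀ ω, 0 < p ω → Y ω ∈ F) (G : Set Ω) {α : ℝ} (hα : 0 ≤ α)
    (hG : ∀ ω ∈ G, law p (fun v => (Y v, T v)) (Y ω, T ω) ≤ α * law p T (T ω))
    (g : υ → τ → ℝ) (hg : ∀ y t, 0 ≤ g y t) :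
    ∑ ω, (if ω ∈ G then p ω * g (Y ω) (T ω) else 0) ≤ α * ∑ y ∈ F, ∑ ω, p ω * g y (T ω) := by
  set P : υ × τ → ℝ := law p (fun v => (Y v, T v)) with hP
  set gg : υ × τ → ℝ := fun z => if P z ≤ α * law p T z.2 then g z.1 z.2 else 0 with hgg
  have h1 : ∑ ω, (if ω ∈ G then p ω * g (Y ω) (T ω) else 0) ≤ ∑ ω, p ω * gg (Y ω, T ω) := by
    refine Finset.sum_le_sum fun ω _ => ?_
    by_cases h : ω ∈ G
    · rw [if_pos h]
      simp only [hgg]
      rw [if_pos (hG ω h)]
    · rw [if_neg h]
      refine mul_nonneg (hp ω) ?_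
      simp only [hgg]
      split_ifs
      · exact hg _ _
      · exact le_rfl
  refine h1.trans ?_
  rw [sum_mul_eq_sum_image p (fun v => (Y v, T v)) gg]
  have h2 : ∑ z ∈ univ.image (fun v => (Y v, T v)), law p (fun v => (Y v, T v)) z * gg z ≤
      ∑ z ∈ (univ.image (fun v => (Y v, T v))).filter (fun z => z.1 ∈ F),
        α * (law p T z.2 * g z.1 z.2) := by
    rw [Finset.sum_filter]
    refine Finset.sum_le_sum fun z hz => ?_
    by_cases hzF : z.1 ∈ F
    · rw [if_pos hzF]
      simp only [hgg]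
      by_cases h : P z ≤ α * law p T z.2
      · rw [if_pos h, ← mul_assoc]
        exact mul_le_mul_of_nonneg_right h (hg _ _)
      · rw [if_neg h, mul_zero]
        exact mul_nonneg hα (mul_nonneg (law_nonneg hp _ _) (hg _ _))
    · rw [if_neg hzF]
      have : law p (fun v => (Y v, T v)) z = 0 := by
        unfold law
        refine Finset.sum_eq_zero fun ω _ => ?_
        split_ifs with h
        · by_contra hne
          exact hzF (by rw [← h]; exact hY ω (lt_of_le_of_ne (hp ω) (Ne.symm hne)))
        · rfl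
      rw [this, zero_mul]
  refine h2.trans ?_
  have h3 : ∑ z ∈ (univ.image (fun v => (Y v, T v))).filter (fun z => z.1 ∈ F),
        α * (law p T z.2 * g z.1 z.2) ≤
      ∑ z ∈ F ×ˢ univ.image T, α * (law p T z.2 * g z.1 z.2) := by
    refine Finset.sum_le_sum_of_subset_of_nonneg ?_ ?_
    · intro z hz
      obtain ⟨hz1, hz2⟩ := Finset.mem_filter.mp hz
      obtain ⟨ω, _, rfl⟩ := Finset.mem_image.mp hz1
      exact Finset.mem_product.mpr ⟨hz2, Finset.mem_image_of_mem _ (Finset.mem_univ _)⟩
    · intro z _ _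
      exact mul_nonneg hα (mul_nonneg (law_nonneg hp _ _) (hg _ _))
  refine h3.trans (le_of_eq ?_)
  rw [Finset.sum_product, Finset.mul_sum]
  refine Finset.sum_congr rfl fun y _ => ?_
  rw [← Finset.mul_sum, sum_mul_eq_sum_image p T (fun t => g y t)]

open Classical in
/-- Two copies, conditionally independent given `(C, Y, N)`, are rarely in a bad relation. -/
theorem mates {p : Ω → ℝ} (hp : IsLaw p) (C : Ω → γ) (S : Ω → σ) (Y : Ω → υ) (N : Ω → ν)
    (F : Finset υ) (hY : ∀ ω, 0 < p ω → Y ω ∈ F) {α β κ ε₁ ε₂ : ℝ} (hα : 0 ≤ α) (hβ : 0 ≤ β)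
    (h1 : Pr p {ω | ¬ law p (fun v => (Y v, (S v, C v))) (Y ω, (S ω, C ω)) ≤
      α * law p (fun v => (S v, C v)) (S ω, C ω)} ≤ ε₁)
    (h2 : Pr p {ω | ¬ law p C (C ω) ≤ β * law p (fun v => ((C v, Y v), N v))
      ((C ω, Y ω), N ω)} ≤ ε₂)
    (R : σ → σ → υ → Prop)
    (hR : ∀ s s', ((F.filter fun y => R s s' y).card : ℝ) ≤ κ) :
    Ex (dbl p (fun ω => ((C ω, Y ω), N ω))) (fun w => if R (S w.1) (S w.2) (Y w.1) then 1 else 0) ≤
      2 * ε₁ + ε₂ + α ^ 2 * β * κ := by
  set b : Ω → (γ × υ) × ν := fun ω => ((C ω, Y ω), N ω) with hb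
  set G₁ : Set Ω := {ω | law p (fun v => (Y v, (S v, C v))) (Y ω, (S ω, C ω)) ≤
      α * law p (fun v => (S v, C v)) (S ω, C ω)} with hG₁
  set G₂ : Set Ω := {ω | law p C (C ω) ≤ β * law p b (b ω)} with hG₂
  have hp0 := hp.nonneg
  set I : Set Ω → Ω → ℝ := fun A ω => if ω ∈ A then 0 else 1 with hI
  have hI1 : Ex p (I G₁) ≤ ε₁ := by
    refine le_trans (le_of_eq ?_) h1
    rw [CDF.Pr_eq]
    unfold Ex
    refine Finset.sum_congr rfl fun ω _ => ?_
    simp only [hI]
    by_cases h : ω ∈ G₁
    · rw [if_pos h, if_neg, mul_zero]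
      simpa [hG₁] using h
    · rw [if_neg h, if_pos, mul_one]
      simpa [hG₁] using h
  have hI2 : Ex p (I G₂) ≤ ε₂ := by
    refine le_trans (le_of_eq ?_) h2
    rw [CDF.Pr_eq]
    unfold Ex
    refine Finset.sum_congr rfl fun ω _ => ?_
    simp only [hI]
    by_cases h : ω ∈ G₂
    · rw [if_pos h, if_neg, mul_zero]
      simpa [hG₂, hb] using h
    · rw [if_neg h, if_pos, mul_one]
      simpa [hG₂, hb] using h
  set main : Ω × Ω → ℝ := fun w => if w.1 ∈ G₁ ∧ w.1 ∈ G₂ ∧ w.2 ∈ G₁ ∧ R (S w.1) (S w.2) (Y w.1)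
    then 1 else 0 with hmain
  have hle : Ex (dbl p b) (fun w => if R (S w.1) (S w.2) (Y w.1) then 1 else 0) ≤
      Ex (dbl p b) (fun w => I G₁ w.1 + I G₁ w.2 + I G₂ w.1 + main w) := by
    refine Ex_mono (dbl_nonneg hp0) fun w _ => ?_
    simp only [hI, hmain]
    by_cases a : w.1 ∈ G₁ <;> by_cases b : w.2 ∈ G₁ <;> by_cases c : w.1 ∈ G₂ <;>
      by_cases d : R (S w.1) (S w.2) (Y w.1) <;> simp [a, b, c, d] <;> norm_num
  refine hle.trans ?_
  rw [Ex_add, Ex_add, Ex_add]
  have e1 : Ex (dbl p b) (fun w => I G₁ w.1) = Ex p (I G₁) := (dbl_fst hp0).ex (I G₁)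
  have e2 : Ex (dbl p b) (fun w => I G₁ w.2) = Ex p (I G₁) := (dbl_snd hp0).ex (I G₁)
  have e3 : Ex (dbl p b) (fun w => I G₂ w.1) = Ex p (I G₂) := (dbl_fst hp0).ex (I G₂)
  rw [e1, e2, e3]
  have hmainle : Ex (dbl p b) main ≤ α ^ 2 * β * κ := by
    -- pass to the sum over pairs
    set h : υ → σ → γ → υ → σ × γ → ℝ := fun y s c y' z =>
      if y' = y ∧ z.2 = c ∧ R s z.1 y then 1 else 0 with hh
    set g₁ : υ → σ × γ → ℝ := fun y z => β / law p C z.2 *
      ∑ ω', (if ω' ∈ G₁ then p ω' * h y z.1 z.2 (Y ω') (S ω', C ω') else 0) with hg₁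
    set g₂ : υ → σ × γ → ℝ := fun y z => β / law p C z.2 *
      (α * ∑ ω', p ω' * (if C ω' = z.2 ∧ R z.1 (S ω') y then 1 else 0)) with hg₂
    have s1 : Ex (dbl p b) main ≤ ∑ ω, (if ω ∈ G₁ then p ω * g₁ (Y ω) (S ω, C ω) else 0) := by
      unfold Ex
      rw [Fintype.sum_prod_type]
      refine Finset.sum_le_sum fun ω _ => ?_
      by_cases hω : ω ∈ G₁
      · rw [if_pos hω]
        simp only [hg₁]
        rw [Finset.mul_sum, Finset.mul_sum]
        refine Finset.sum_le_sum fun ω' _ => ?_
        simp only [hmain, hh]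
        by_cases hω' : ω' ∈ G₁
        · rw [if_pos hω']
          by_cases hc : ω ∈ G₂ ∧ R (S ω) (S ω') (Y ω)
          · rw [if_pos ⟨hω, hc.1, hω', hc.2⟩, mul_one]
            unfold dbl glue
            by_cases hbb : b ω = b ω'
            · rw [if_pos hbb]
              have hb1 : C ω = C ω' := congrArg (fun z => z.1.1) hbb
              have hb2 : Y ω = Y ω' := congrArg (fun z => z.1.2) hbb
              rw [if_pos ⟨hb2.symm, hb1.symm, hc.2⟩]
              rcases (hp0 ω).eq_or_lt with h0 | h0
              · rw [← h0]; simp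
              · have l1 : 0 < law p b (b ω) := law_pos hp0 b h0
                have l2 : 0 < law p C (C ω) := law_pos hp0 C h0
                have l3 : law p C (C ω) ≤ β * law p b (b ω) := hc.1
                have l4 : 1 / law p b (b ω) ≤ β / law p C (C ω) := by
                  rw [div_le_div_iff₀ l1 l2]
                  linarith
                have l5 := mul_le_mul_of_nonneg_left l4 (mul_nonneg (hp0 ω) (hp0 ω'))
                calc p (ω, ω').1 * p (ω, ω').2 / law p b (b (ω, ω').1)
                    = p ω * p ω' * (1 / law p b (b ω)) := by ring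
                  _ ≤ p ω * p ω' * (β / law p C (C ω)) := l5
                  _ = p ω * (β / law p C (S ω, C ω).2 * (p ω' * 1)) := by ring
            · rw [if_neg hbb]
              refine mul_nonneg (hp0 _) (mul_nonneg (div_nonneg hβ (law_nonneg hp0 _ _))
                (mul_nonneg (hp0 _) ?_))
              split_ifs
              · exact zero_le_one
              · exact le_rfl
          · rw [if_neg (fun hcon => hc ⟨hcon.2.1, hcon.2.2.2⟩), mul_zero]
            refine mul_nonneg (hp0 _) (mul_nonneg (div_nonneg hβ (law_nonneg hp0 _ _))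
              (mul_nonneg (hp0 _) ?_))
            split_ifs
            · exact zero_le_one
            · exact le_rfl
        · rw [if_neg hω', if_neg (fun hcon => hω' hcon.2.2.1)]
          simp
      · rw [if_neg hω]
        refine le_of_eq (Finset.sum_eq_zero fun ω' _ => ?_)
        simp only [hmain]
        rw [if_neg (fun hcon => hω hcon.1), mul_zero]
    have s2 : ∀ y z, g₁ y z ≤ g₂ y z := by
      intro y z
      simp only [hg₁, hg₂]
      refine mul_le_mul_of_nonneg_left ?_ (div_nonneg hβ (law_nonneg hp0 _ _))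
      have := free hp0 Y (fun v => (S v, C v)) F hY G₁ hα (fun ω hω => hω)
        (fun y' z' => h y z.1 z.2 y' z') (by
          intro y' z'
          simp only [hh]
          split_ifs
          · exact zero_le_one
          · exact le_rfl)
      refine this.trans (mul_le_mul_of_nonneg_left ?_ hα)
      rw [Finset.sum_comm]
      refine Finset.sum_le_sum fun ω' _ => ?_
      rw [← Finset.mul_sum]
      refine mul_le_mul_of_nonneg_left ?_ (hp0 ω')
      simp only [hh]
      by_cases hc : C ω' = z.2 ∧ R z.1 (S ω') y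
      · rw [if_pos hc]
        have : ∀ i ∈ F, (if i = y ∧ C ω' = z.2 ∧ R z.1 (S ω') y then (1 : ℝ) else 0) =
            if i = y then 1 else 0 := by
          intro i _
          by_cases hi : i = y
          · rw [if_pos ⟨hi, hc⟩, if_pos hi]
          · rw [if_neg (fun hcon => hi hcon.1), if_neg hi]
        rw [Finset.sum_congr rfl this, Finset.sum_ite_eq']
        split_ifs
        · exact le_rfl
        · exact zero_le_one
      · rw [if_neg hc]
        refine le_of_eq (Finset.sum_eq_zero fun i _ => ?_)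
        rw [if_neg (fun hcon => hc hcon.2)]
    have hg2nn : ∀ y z, 0 ≤ g₂ y z := by
      intro y z
      simp only [hg₂]
      refine mul_nonneg (div_nonneg hβ (law_nonneg hp0 _ _)) (mul_nonneg hα
        (Finset.sum_nonneg fun ω' _ => mul_nonneg (hp0 ω') ?_))
      split_ifs
      · exact zero_le_one
      · exact le_rfl
    have s3 : ∑ ω, (if ω ∈ G₁ then p ω * g₁ (Y ω) (S ω, C ω) else 0) ≤
        ∑ ω, (if ω ∈ G₁ then p ω * g₂ (Y ω) (S ω, C ω) else 0) := by
      refine Finset.sum_le_sum fun ω _ => ?_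
      split_ifs
      · exact mul_le_mul_of_nonneg_left (s2 _ _) (hp0 ω)
      · exact le_rfl
    have s4 := free hp0 Y (fun v => (S v, C v)) F hY G₁ hα (fun ω hω => hω) g₂ hg2nn
    refine s1.trans (s3.trans (s4.trans ?_))
    have s5 : ∑ y ∈ F, ∑ ω, p ω * g₂ y (S ω, C ω) ≤ α * β * κ := by
      rw [Finset.sum_comm]
      have : ∀ ω ∈ (univ : Finset Ω), ∑ y ∈ F, p ω * g₂ y (S ω, C ω) ≤ p ω * (α * β * κ) := by
        intro ω _
        rw [← Finset.mul_sum]
        rcases (hp0 ω).eq_or_lt with h0 | h0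
        · rw [← h0]; simp
        refine mul_le_mul_of_nonneg_left ?_ (hp0 ω)
        simp only [hg₂]
        have l2 : 0 < law p C (C ω) := law_pos hp0 C h0
        rw [← Finset.mul_sum, ← Finset.mul_sum, Finset.sum_comm]
        have l3 : ∑ ω', ∑ y ∈ F, p ω' * (if C ω' = C ω ∧ R (S ω) (S ω') y then (1 : ℝ) else 0) ≤
            κ * law p C (C ω) := by
          unfold law
          rw [Finset.mul_sum]
          refine Finset.sum_le_sum fun ω' _ => ?_
          rw [← Finset.mul_sum]
          by_cases hc : C ω' = C ω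
          · rw [if_pos hc, mul_comm κ]
            refine mul_le_mul_of_nonneg_left ?_ (hp0 ω')
            refine le_trans (le_of_eq ?_) (hR (S ω) (S ω'))
            rw [Finset.card_filter]
            push_cast
            refine Finset.sum_congr rfl fun y _ => ?_
            by_cases hr : R (S ω) (S ω') y
            · rw [if_pos ⟨hc, hr⟩, if_pos hr]
            · rw [if_neg (fun hcon => hr hcon.2), if_neg hr]
          · rw [if_neg hc, mul_zero]
            refine le_of_eq ?_
            rw [Finset.sum_eq_zero, mul_zero]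
            intro y _
            rw [if_neg (fun hcon => hc hcon.1)]
        calc β / law p C (C ω) * (α * ∑ ω', ∑ y ∈ F,
              p ω' * (if C ω' = C ω ∧ R (S ω) (S ω') y then (1 : ℝ) else 0)) ≤
            β / law p C (C ω) * (α * (κ * law p C (C ω))) :=
              mul_le_mul_of_nonneg_left (mul_le_mul_of_nonneg_left l3 hα)
                (div_nonneg hβ l2.le)
          _ = α * β * κ := by
              field_simp
      refine (Finset.sum_le_sum this).trans ?_
      rw [← Finset.sum_mul, hp.sum_one, one_mul]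
    calc α * ∑ y ∈ F, ∑ ω, p ω * g₂ y (S ω, C ω) ≤ α * (α * β * κ) :=
          mul_le_mul_of_nonneg_left s5 hα
      _ = α ^ 2 * β * κ := by ring
  linarith

end Pool.KAL.FRM
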