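import Pool.Agent.H40.KAL.FRMb
import Pool.Agent.H40.KAL.FRMDefs

/-!
# One frame per box: counting
-/

set_option autoImplicit false

namespace Pool.KAL.FRM

open Finset Real
open Pool.Agent.H49.Ent Pool.Agent.H32.Dense Pool.STK Pool.KAF

lemma card_le_of_diam (T : Finset ℤ) {L : ℝ} (hL : 0 ≤ L)
    (h : ∀ x ∈ T, ∀ y ∈ T, (x : ℝ) - y ≤ L) : (T.card : ℝ) ≤ L + 1 := by
  rcases T.eq_empty_or_nonempty with h0 | h0
  · rw [h0]
    simp
    linarith
  · have h1 : T ⊆ Finset.Icc (T.min' h0) (T.max' h0) := fun x hx =>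
      Finset.mem_Icc.mpr ⟨T.min'_le x hx, T.le_max' x hx⟩
    have h2 := Finset.card_le_card h1
    rw [Int.card_Icc] at h2
    have h3 := h _ (T.max'_mem h0) _ (T.min'_mem h0)
    have h4 : T.min' h0 ≤ T.max' h0 := T.min'_le _ (T.max'_mem h0)
    have h5 : (((T.max' h0 + 1 - T.min' h0).toNat : ℤ) : ℝ) = (T.max' h0 : ℝ) + 1 - T.min' h0 := by
      rw [Int.toNat_of_nonneg (by linarith)]
      push_cast
      ring
    have h6 : ((T.card : ℕ) : ℝ) ≤ ((T.max' h0 + 1 - T.min' h0).toNat : ℝ) := by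
      exact_mod_cast h2
    have h7 : (((T.max' h0 + 1 - T.min' h0).toNat : ℕ) : ℝ) =
      (((T.max' h0 + 1 - T.min' h0).toNat : ℤ) : ℝ) := by push_cast; rfl
    rw [h7, h5] at h6
    linarith

lemma count_le {k M : ℕ} (hM : 0 < M) {κ ρ : ℝ} (hκ : 0 ≤ κ) (hρ : 0 < ρ) (A : ℝ) (D : Fin k → ℝ)
    (j₀ : Fin k) (hD : ρ ≤ |D j₀|) :
    (((Fintype.piFinset fun _ : Fin k => Finset.Ico (0 : ℤ) M).filter
      fun y => |A + ∑ j, D j * y j / M| ≤ 2 * κ).card : ℝ) ≤ M ^ k * (4 * κ / ρ + 1 / M) := by
  classical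
  have hM' : (0 : ℝ) < M := by exact_mod_cast hM
  set S := (Fintype.piFinset fun _ : Fin k => Finset.Ico (0 : ℤ) M).filter
      fun y => |A + ∑ j, D j * y j / M| ≤ 2 * κ with hS
  set L : ℝ := 4 * κ * M / ρ with hL
  have hL0 : 0 ≤ L := by positivity
  set f : (Fin k → ℤ) → (Fin k → ℤ) := fun y => Function.update y j₀ 0 with hf
  have hfib : ∀ z ∈ S.image f, (S.filter fun y => f y = z).card ≤ ⌊L⌋₊ + 1 := by
    intro z _
    set U := S.filter fun y => f y = z with hU
    have hinj : Set.InjOn (fun y : Fin k → ℤ => y j₀) (U : Set (Fin k → ℤ)) := by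
      intro y hy y' hy' hyy
      have h1 : f y = z := (Finset.mem_filter.mp hy).2
      have h2 : f y' = z := (Finset.mem_filter.mp hy').2
      funext j
      by_cases hj : j = j₀
      · rw [hj]; exact hyy
      · have := congrFun (h1.trans h2.symm) j
        simp only [hf, Function.update_of_ne hj] at this
        exact this
    rw [← Finset.card_image_of_injOn hinj]
    have hreal : (((U.image fun y : Fin k → ℤ => y j₀).card : ℕ) : ℝ) ≤ L + 1 := by
      refine card_le_of_diam _ hL0 ?_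
      intro x hx x' hx'
      obtain ⟨y, hy, rfl⟩ := Finset.mem_image.mp hx
      obtain ⟨y', hy', rfl⟩ := Finset.mem_image.mp hx'
      have h1 : f y = z := (Finset.mem_filter.mp hy).2
      have h2 : f y' = z := (Finset.mem_filter.mp hy').2
      have b1 : |A + ∑ j, D j * y j / M| ≤ 2 * κ :=
        (Finset.mem_filter.mp (Finset.mem_filter.mp hy).1).2
      have b2 : |A + ∑ j, D j * y' j / M| ≤ 2 * κ :=
        (Finset.mem_filter.mp (Finset.mem_filter.mp hy').1).2
      have hdiff : (A + ∑ j, D j * y j / M) - (A + ∑ j, D j * y' j / M) =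
          D j₀ * ((y j₀ : ℝ) - y' j₀) / M := by
        rw [add_sub_add_left_eq_sub, ← Finset.sum_sub_distrib]
        rw [Finset.sum_eq_single j₀]
        · ring
        · intro j _ hj
          have := congrFun (h1.trans h2.symm) j
          simp only [hf, Function.update_of_ne hj] at this
          rw [this]
          ring
        · intro h
          exact absurd (Finset.mem_univ _) h
      have h3 : |D j₀ * ((y j₀ : ℝ) - y' j₀) / M| ≤ 4 * κ := by
        rw [← hdiff]
        refine (abs_sub _ _).trans ?_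
        linarith
      rw [abs_div, abs_mul, abs_of_pos hM', div_le_iff₀ hM'] at h3
      have h4 : ρ * |(y j₀ : ℝ) - y' j₀| ≤ 4 * κ * M :=
        (mul_le_mul_of_nonneg_right hD (abs_nonneg _)).trans h3
      have h5 : |(y j₀ : ℝ) - y' j₀| ≤ L := by
        rw [hL, le_div_iff₀ hρ]
        linarith
      exact (le_abs_self _).trans h5
    have : (((U.image fun y : Fin k → ℤ => y j₀).card : ℕ) : ℝ) < (⌊L⌋₊ + 1 : ℕ) + 1 := by
      have := Nat.lt_floor_add_one L
      push_cast
      linarith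
    have h8 : (U.image fun y : Fin k → ℤ => y j₀).card < ⌊L⌋₊ + 1 + 1 := by exact_mod_cast this
    omega
  have h1 := Finset.card_le_mul_card_image S (⌊L⌋₊ + 1) hfib
  have h2 : (S.image f).card ≤ M ^ (k - 1) := by
    have hsub : S.image f ⊆ Fintype.piFinset fun j : Fin k =>
        if j = j₀ then {(0 : ℤ)} else Finset.Ico (0 : ℤ) M := by
      intro z hz
      obtain ⟨y, hy, rfl⟩ := Finset.mem_image.mp hz
      rw [Fintype.mem_piFinset]
      intro j
      have hy1 := Fintype.mem_piFinset.mp (Finset.mem_filter.mp hy).1 j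
      by_cases hj : j = j₀
      · rw [if_pos hj, hj]
        simp [hf]
      · rw [if_neg hj]
        simp only [hf, Function.update_of_ne hj]
        exact hy1
    refine (Finset.card_le_card hsub).trans (le_of_eq ?_)
    rw [Fintype.card_piFinset]
    have : ∀ j : Fin k, (if j = j₀ then {(0 : ℤ)} else Finset.Ico (0 : ℤ) M).card =
        if j = j₀ then 1 else M := by
      intro j
      split_ifs
      · simp
      · simp
    rw [Finset.prod_congr rfl fun j _ => this j, ← Finset.mul_prod_erase _ _ (Finset.mem_univ j₀),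
      if_pos rfl, one_mul, Finset.prod_congr rfl (g := fun _ => M)]
    · rw [Finset.prod_const, Finset.card_erase_of_mem (Finset.mem_univ _), Finset.card_univ,
        Fintype.card_fin]
    · intro j hj
      rw [if_neg (Finset.ne_of_mem_erase hj)]
  have hk : 0 < k := j₀.pos
  have h3 : (S.card : ℝ) ≤ (L + 1) * M ^ (k - 1) := by
    calc (S.card : ℝ) ≤ (((⌊L⌋₊ + 1) * (S.image f).card : ℕ) : ℝ) := by exact_mod_cast h1
      _ ≤ (L + 1) * M ^ (k - 1) := by
        push_cast
        have h4 : ((⌊L⌋₊ : ℕ) : ℝ) + 1 ≤ L + 1 := by linarith [Nat.floor_le hL0]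
        have h5 : (((S.image f).card : ℕ) : ℝ) ≤ (M : ℝ) ^ (k - 1) := by exact_mod_cast h2
        exact mul_le_mul h4 h5 (by positivity) (by positivity)
  refine h3.trans (le_of_eq ?_)
  have h6 : (M : ℝ) ^ k = M ^ (k - 1) * M := by
    rw [← pow_succ]
    congr 1
    omega
  rw [h6, hL]
  field_simp

/-- The possible values of an integer matrix at scale `2 ^ e'` given its value at the scale
`2 ^ e`. -/
noncomputable def box {c k : ℕ} (g : ℕ) (x : Fin c → Fin k → ℤ) : Finset (Fin c → Fin k → ℤ) :=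
  Fintype.piFinset fun i => Fintype.piFinset fun j =>
    Finset.Ico (x i j * 2 ^ g) (x i j * 2 ^ g + 2 ^ g)

lemma card_box {c k : ℕ} (g : ℕ) (x : Fin c → Fin k → ℤ) :
    ((box g x).card : ℝ) = 2 ^ (g * (c * k)) := by
  unfold box
  rw [Fintype.card_piFinset]
  have h1 : ∀ i : Fin c, (Fintype.piFinset fun j =>
      Finset.Ico (x i j * 2 ^ g) (x i j * 2 ^ g + 2 ^ g)).card = 2 ^ (g * k) := by
    intro i
    rw [Fintype.card_piFinset]
    have : ∀ j : Fin k, (Finset.Ico (x i j * 2 ^ g) (x i j * 2 ^ g + 2 ^ g)).card = 2 ^ g := by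
      intro j
      rw [Int.card_Ico]
      rw [add_sub_cancel_left]
      have : ((2 : ℤ) ^ g) = ((2 ^ g : ℕ) : ℤ) := by push_cast; rfl
      rw [this, Int.toNat_natCast]
    rw [Finset.prod_congr rfl fun j _ => this j, Finset.prod_const, Finset.card_univ,
      Fintype.card_fin, ← pow_mul]
  rw [Finset.prod_congr rfl fun i _ => h1 i, Finset.prod_const, Finset.card_univ,
    Fintype.card_fin, ← pow_mul]
  push_cast
  congr 1
  ring

lemma mem_box {c k e e' : ℕ} (he : e' ≤ e) (s : Fin c → Fin k → ℤ) :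
    (fun i j => s i j / 2 ^ e') ∈ box (e - e') (fun i j => s i j / 2 ^ e) := by
  unfold box
  rw [Fintype.mem_piFinset]
  intro i
  rw [Fintype.mem_piFinset]
  intro j
  have h1 : s i j / 2 ^ e = s i j / 2 ^ e' / 2 ^ (e - e') := by
    rw [Int.ediv_ediv_of_nonneg (by positivity), ← pow_add]
    congr 2
    omega
  change s i j / 2 ^ e' ∈ Finset.Ico (s i j / 2 ^ e * 2 ^ (e - e'))
    (s i j / 2 ^ e * 2 ^ (e - e') + 2 ^ (e - e'))
  rw [h1]
  set x := s i j / 2 ^ e' with hx
  have h2 : (0 : ℤ) < 2 ^ (e - e') := by positivity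
  have h3 := Int.emod_nonneg x h2.ne'
  have h4 := Int.emod_lt_of_pos x h2
  have h5 := Int.ediv_mul_add_emod x (2 ^ (e - e'))
  rw [Finset.mem_Ico]
  constructor <;> linarith

/-- The neighbours of an integer matrix. -/
noncomputable def nbr {c k : ℕ} (x : Fin c → Fin k → ℤ) : Finset (Fin c → Fin k → ℤ) :=
  Fintype.piFinset fun i => Fintype.piFinset fun j => Finset.Icc (x i j - 1) (x i j + 1)

lemma card_nbr {c k : ℕ} (x : Fin c → Fin k → ℤ) : ((nbr x).card : ℝ) = 3 ^ (c * k) := by
  unfold nbr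
  rw [Fintype.card_piFinset]
  have h1 : ∀ i : Fin c, (Fintype.piFinset fun j =>
      Finset.Icc (x i j - 1) (x i j + 1)).card = 3 ^ k := by
    intro i
    rw [Fintype.card_piFinset]
    have : ∀ j : Fin k, (Finset.Icc (x i j - 1) (x i j + 1)).card = 3 := by
      intro j
      rw [Int.card_Icc]
      have : x i j + 1 + 1 - (x i j - 1) = 3 := by ring
      rw [this]
      rfl
    rw [Finset.prod_congr rfl fun j _ => this j, Finset.prod_const, Finset.card_univ,
      Fintype.card_fin]
  rw [Finset.prod_congr rfl fun i _ => h1 i, Finset.prod_const, Finset.card_univ,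
    Fintype.card_fin, ← pow_mul]
  push_cast
  congr 1
  ring

lemma not_nbr {c k e : ℕ} {s s' : Fin c → Fin k → ℤ}
    (h : (fun i j => s i j / 2 ^ e) ∉ nbr (fun i j => s' i j / 2 ^ e)) :
    ∃ i j, (2 : ℝ) ^ e ≤ |(s i j : ℝ) - s' i j| := by
  by_contra hcon
  push Not at hcon
  refine h ?_
  unfold nbr
  rw [Fintype.mem_piFinset]
  intro i
  rw [Fintype.mem_piFinset]
  intro j
  have h1 := hcon i j
  have h2 : |s i j - s' i j| < 2 ^ e := by
    have : ((|s i j - s' i j| : ℤ) : ℝ) < ((2 ^ e : ℤ) : ℝ) := by push_cast; exact h1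
    exact_mod_cast this
  rw [abs_lt] at h2
  set P : ℤ := 2 ^ e with hP
  have hPpos : 0 < P := by positivity
  have a1 := Int.emod_nonneg (s i j) hPpos.ne'
  have a2 := Int.emod_lt_of_pos (s i j) hPpos
  have a3 := Int.ediv_mul_add_emod (s i j) P
  have b1 := Int.emod_nonneg (s' i j) hPpos.ne'
  have b2 := Int.emod_lt_of_pos (s' i j) hPpos
  have b3 := Int.ediv_mul_add_emod (s' i j) P
  rw [Finset.mem_Icc]
  constructor
  · by_contra hc
    push Not at hc
    have : s i j / P + 2 ≤ s' i j / P := by linarith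
    nlinarith
  · by_contra hc
    push Not at hc
    have : s' i j / P + 2 ≤ s i j / P := by linarith
    nlinarith

end Pool.KAL.FRM
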