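import Pool.Agent.H56.KAL.Stmts

/-!
# Module SUBL: small values of a polynomial
-/

set_option autoImplicit false

namespace Pool.KAL

open Finset Real MeasureTheory

theorem subl_thm : RMMStmt → SUBLStmt := by
  intro hR k hk
  obtain ⟨C, hC, h⟩ := hR k
  refine ⟨max 1 C, lt_of_lt_of_le one_pos (le_max_left _ _), ?_⟩
  intro P a b ε hdeg hab hε hex
  obtain ⟨x, hx, hPx⟩ := hex
  have hba : 0 < b - a := sub_pos.2 hab
  set E : Set ℝ := {x ∈ Set.Icc a b | |P.eval x| ≤ ε ^ k} with hE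
  have hEsub : E ⊆ Set.Icc a b := fun y hy => hy.1
  have hEm : MeasurableSet E := by
    refine MeasurableSet.inter measurableSet_Icc ?_
    exact measurableSet_le (P.continuous.abs.measurable) measurable_const
  have hfin : volume E ≤ ENNReal.ofReal (b - a) := by
    rw [← Real.volume_Icc]
    exact measure_mono hEsub
  have hne : volume E ≠ ⊤ := (lt_of_le_of_lt hfin ENNReal.ofReal_lt_top).ne
  rcases eq_or_ne (volume E) 0 with h0 | h0
  · rw [h0]
    exact zero_le
  set ρ : ℝ := (volume E).toReal / (b - a) with hρ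
  have hv : 0 < (volume E).toReal := ENNReal.toReal_pos h0 hne
  have hρ0 : 0 < ρ := div_pos hv hba
  have hvol : volume E = ENNReal.ofReal (ρ * (b - a)) := by
    rw [hρ, div_mul_cancel₀ _ hba.ne', ENNReal.ofReal_toReal hne]
  have hρ1 : ρ ≤ 1 := by
    rw [hρ, div_le_one hba]
    exact ENNReal.toReal_le_of_le_ofReal hba.le hfin
  have h1 := h P a b ρ 1 (ε ^ k) E hdeg hab hρ0 hρ1 le_rfl hEm hEsub hvol.symm.le
    (fun y hy => hy.2) x (by rw [one_mul, abs_of_nonneg (by linarith [hx.1])]; linarith [hx.2])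
  have h2 : 1 ≤ C * (1 / ρ) ^ k * ε ^ k := le_trans hPx h1
  have h3 : ρ ^ k ≤ (max 1 C * ε) ^ k := by
    have h4 : ρ ^ k ≤ C * ε ^ k := by
      have h5 : 0 < ρ ^ k := pow_pos hρ0 k
      have h6 : C * (1 / ρ) ^ k * ε ^ k * ρ ^ k = C * ε ^ k := by
        rw [div_pow, one_pow]
        field_simp
      calc ρ ^ k = 1 * ρ ^ k := (one_mul _).symm
        _ ≤ C * (1 / ρ) ^ k * ε ^ k * ρ ^ k := mul_le_mul_of_nonneg_right h2 h5.le
        _ = C * ε ^ k := h6
    rw [mul_pow]
    refine le_trans h4 (mul_le_mul_of_nonneg_right ?_ (pow_nonneg hε k))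
    calc C ≤ max 1 C := le_max_right _ _
      _ = (max 1 C) ^ 1 := (pow_one _).symm
      _ ≤ (max 1 C) ^ k := pow_le_pow_right₀ (le_max_left _ _) hk
  have h7 : ρ ≤ max 1 C * ε := by
    have h8 : 0 ≤ max 1 C * ε := mul_nonneg (le_trans zero_le_one (le_max_left _ _)) hε
    exact le_of_pow_le_pow_left₀ (by omega) h8 h3
  rw [hvol]
  refine ENNReal.ofReal_le_ofReal ?_
  exact mul_le_mul_of_nonneg_right h7 hba.le

end Pool.KAL
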