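import Pool.Agent.H56.KAL.Stmts2

/-!
# Module VER: vertical lines
-/

set_option autoImplicit false

namespace Pool.KAL

namespace VER

/-- Restriction of a polynomial to a vertical line. -/
noncomputable def vl {n : ℕ} (y : Fin n → ℝ) :
    MvPolynomial (Option (Fin n)) ℝ →ₐ[ℝ] Polynomial ℝ :=
  MvPolynomial.aeval fun o : Option (Fin n) => o.elim Polynomial.X (fun i => Polynomial.C (y i))

lemma eval_vl {n : ℕ} (y : Fin n → ℝ) (z : ℝ) (P : MvPolynomial (Option (Fin n)) ℝ) :
    (vl y P).eval z = MvPolynomial.eval (fun o : Option (Fin n) => o.elim z y) P := by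
  induction P using MvPolynomial.induction_on with
  | C a => simp [vl]
  | add p q hp hq => rw [map_add, Polynomial.eval_add, hp, hq, map_add]
  | mul_X p i hp =>
    rw [map_mul, Polynomial.eval_mul, hp, map_mul, MvPolynomial.eval_X]
    congr 1
    cases i with
    | none => simp [vl]
    | some i => simp [vl]

lemma derivative_vl {n : ℕ} (y : Fin n → ℝ) (P : MvPolynomial (Option (Fin n)) ℝ) :
    Polynomial.derivative (vl y P) =
      vl y (MvPolynomial.pderiv (none : Option (Fin n)) P) := by
  induction P using MvPolynomial.induction_on with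
  | C a => simp [vl]
  | add p q hp hq => rw [map_add, map_add, hp, hq, map_add, map_add]
  | mul_X p i hp =>
    rw [map_mul, Polynomial.derivative_mul, hp, Derivation.leibniz, map_add, smul_eq_mul,
      smul_eq_mul, map_mul, map_mul]
    cases i with
    | none =>
      rw [MvPolynomial.pderiv_X_self]
      simp only [vl, MvPolynomial.aeval_X, Option.elim, Polynomial.derivative_X, map_one, mul_one]
      ring
    | some i =>
      rw [MvPolynomial.pderiv_X_of_ne (by simp)]
      simp only [vl, MvPolynomial.aeval_X, Option.elim, Polynomial.derivative_C, map_zero,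
        mul_zero]
      ring

lemma iterate_vl {n : ℕ} (y : Fin n → ℝ) (P : MvPolynomial (Option (Fin n)) ℝ) (i : ℕ) :
    Polynomial.derivative^[i] (vl y P) =
      vl y ((MvPolynomial.pderiv (none : Option (Fin n)))^[i] P) := by
  induction i with
  | zero => rfl
  | succ i ih => rw [Function.iterate_succ_apply', Function.iterate_succ_apply', ih,
      derivative_vl]

end VER

theorem ver_thm : VERStmt := by
  intro n P y z h z'
  have h1 : ∀ i, (Polynomial.derivative^[i] (VER.vl y P)).eval z = 0 := by
    intro i
    rw [VER.iterate_vl, VER.eval_vl]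
    exact h i
  have h2 : VER.vl y P = 0 := by
    apply Polynomial.taylor_injective z
    rw [map_zero]
    ext k
    rw [Polynomial.taylor_coeff, Polynomial.coeff_zero]
    have h3 := congrArg (fun q : Polynomial ℝ => q.eval z)
      (congrFun (Polynomial.factorial_smul_hasseDeriv (R := ℝ) k) (VER.vl y P))
    have h4 : ((Nat.factorial k • Polynomial.hasseDeriv k (VER.vl y P)).eval z) =
        (Nat.factorial k : ℝ) * (Polynomial.hasseDeriv k (VER.vl y P)).eval z := by
      rw [nsmul_eq_mul, Polynomial.eval_mul, Polynomial.eval_natCast]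
    have h5 : (Nat.factorial k : ℝ) * (Polynomial.hasseDeriv k (VER.vl y P)).eval z = 0 := by
      rw [← h4, ← h1 k]
      exact h3
    rcases mul_eq_zero.1 h5 with h6 | h6
    · exact absurd h6 (by exact_mod_cast Nat.factorial_ne_zero k)
    · exact h6
  rw [← VER.eval_vl, h2, Polynomial.eval_zero]

end Pool.KAL
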